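import Mathlib

/-!
# CG3, block T, module Defs: the poset `T`

`κ = Ordinal.{0}` (a type in `Type 1`), small = `Small.{0}` = size `< κ`. `I : Type 1` is any index
type. In all preorders `p ≤ q` means: `p` is stronger.

A finite approximation `u` of a club of `κ` is a finite set of pairs `(α, b)` with `α ≤ b`: `α` is in
the club, the interval `(α, b]` is disjoint from it.
-/

set_option autoImplicit false

namespace Pool.Agent.CG3

open Set

/-- The inaccessible cardinal `κ`. -/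
abbrev K0 : Type 1 := Ordinal.{0}

/-! ### Finite approximations of a club -/

/-- `ν` is in the club. -/
def In (u : Set (K0 × K0)) (ν : K0) : Prop := ∃ p ∈ u, p.1 = ν

/-- `ν` is not in the club. -/
def Out (u : Set (K0 × K0)) (ν : K0) : Prop := ∃ p ∈ u, p.1 < ν ∧ ν ≤ p.2

/-- `ν` is decided. -/
def Dec (u : Set (K0 × K0)) (ν : K0) : Prop := In u ν ∨ Out u ν

/-- Finite approximations of a club. -/
structure IsU (u : Set (K0 × K0)) : Prop where
  fin : u.Finite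
  zero : In u 0
  le : ∀ p ∈ u, p.1 ≤ p.2
  uni : ∀ p ∈ u, ∀ q ∈ u, p.1 = q.1 → p = q
  sep : ∀ p ∈ u, ∀ q ∈ u, p.1 < q.1 → p.2 < q.1

/-- `v` is stronger than `u`. -/
def ULe (v u : Set (K0 × K0)) : Prop := ∀ p ∈ u, ∃ q ∈ v, q.1 = p.1 ∧ p.2 ≤ q.2

theorem ULe.refl (u : Set (K0 × K0)) : ULe u u := fun p hp => ⟨p, hp, rfl, le_rfl⟩

theorem ULe.trans {w v u : Set (K0 × K0)} (h1 : ULe w v) (h2 : ULe v u) : ULe w u := by
  intro p hp
  obtain ⟨q, hq, h3, h4⟩ := h2 p hp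
  obtain ⟨r, hr, h5, h6⟩ := h1 q hq
  exact ⟨r, hr, h5.trans h3, h4.trans h6⟩

theorem In.mono {v u : Set (K0 × K0)} {ν : K0} (h : In u ν) (hv : ULe v u) : In v ν := by
  obtain ⟨p, hp, h1⟩ := h
  obtain ⟨q, hq, h2, _⟩ := hv p hp
  exact ⟨q, hq, h2.trans h1⟩

theorem Out.mono {v u : Set (K0 × K0)} {ν : K0} (h : Out u ν) (hv : ULe v u) : Out v ν := by
  obtain ⟨p, hp, h1, h2⟩ := h
  obtain ⟨q, hq, h3, h4⟩ := hv p hp
  exact ⟨q, hq, h3 ▸ h1, h2.trans h4⟩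

theorem Dec.mono {v u : Set (K0 × K0)} {ν : K0} (h : Dec u ν) (hv : ULe v u) : Dec v ν :=
  h.imp (fun h => h.mono hv) (fun h => h.mono hv)

/-- A decided ordinal which is in the club for a stronger approximation is in the club. -/
theorem In.of_dec {v u : Set (K0 × K0)} {ν : K0} (hv : IsU v) (h : ULe v u) (hd : Dec u ν)
    (hi : In v ν) : In u ν := by
  rcases hd with hd | hd
  · exact hd
  · exfalso
    obtain ⟨q, hq, h1, h2⟩ := hd.mono h
    obtain ⟨p, hp, h3⟩ := hi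
    have h4 := hv.sep q hq p hp (h3 ▸ h1)
    rw [h3] at h4
    exact absurd h2 (not_le.2 h4)

/-- The approximations of a club, as a preorder. -/
def UC : Type 1 := {u : Set (K0 × K0) // IsU u}

instance : Preorder UC where
  le v u := ULe v.1 u.1
  le_refl u := ULe.refl u.1
  le_trans _ _ _ h1 h2 := ULe.trans h1 h2

theorem UC.le_def {v u : UC} : v ≤ u ↔ ULe v.1 u.1 := Iff.rfl

/-- The approximation which puts a finite set (and `0`) into the club. -/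
def uOf (F : Set K0) : Set (K0 × K0) := {p | p.1 = p.2 ∧ (p.1 = 0 ∨ p.1 ∈ F)}

theorem isU_uOf {F : Set K0} (hF : F.Finite) : IsU (uOf F) where
  fin := by
    refine ((hF.insert 0).image fun a : K0 => (a, a)).subset ?_
    rintro ⟨a, b⟩ ⟨h1, h2⟩
    simp only at h1 h2
    subst h1
    exact ⟨a, h2, rfl⟩
  zero := ⟨(0, 0), ⟨rfl, Or.inl rfl⟩, rfl⟩
  le p hp := le_of_eq hp.1
  uni p hp q hq h := Prod.ext h (by rw [← hp.1, ← hq.1, h])
  sep p hp q hq h := by rw [← hp.1]; exact h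

theorem in_uOf {F : Set K0} {ν : K0} : In (uOf F) ν ↔ ν = 0 ∨ ν ∈ F := by
  constructor
  · rintro ⟨p, ⟨_, h2⟩, rfl⟩
    exact h2
  · intro h
    exact ⟨(ν, ν), ⟨rfl, h⟩, rfl⟩

/-- `w` is stronger than `uOf F` if it puts the elements of `F` into the club. -/
theorem ule_uOf {F : Set K0} {w : Set (K0 × K0)} (hw : IsU w) (h : ∀ ν ∈ F, In w ν) :
    ULe w (uOf F) := by
  intro p hp
  have h1 : In w p.1 := by
    rcases hp.2 with h0 | h0
    · rw [h0]; exact hw.zero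
    · exact h _ h0
  obtain ⟨q, hq, h2⟩ := h1
  exact ⟨q, hq, h2, by rw [← hp.1, ← h2]; exact hw.le q hq⟩

/-! ### Skeletons -/

/-- Raw skeletons: `g x` is the part below `ε` of a subset of `κ`. -/
structure Skl (I : Type 1) : Type 1 where
  /-- the height -/
  ε : K0
  /-- the coordinates -/
  X : Set I
  /-- the Cohen parts -/
  g : I → Set K0
  /-- the side conditions `(δ, K)` -/
  S : Set (K0 × Set I)

variable {I : Type 1}

/-- `g x` and `g z` differ below `δ`. -/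
def Df (g : I → Set K0) (x z : I) (δ : K0) : Prop := ∃ ν < δ, ¬ (ν ∈ g x ↔ ν ∈ g z)

/-- Skeletons. -/
structure IsSkl (s : Skl I) : Prop where
  smX : Small.{0} s.X
  smS : Small.{0} s.S
  gε : ∀ x, ∀ ν ∈ s.g x, ν < s.ε
  gX : ∀ x, x ∉ s.X → s.g x = ∅
  le : ∀ p ∈ s.S, p.1 ≤ s.ε
  sub : ∀ p ∈ s.S, p.2 ⊆ s.X
  dist : ∀ p ∈ s.S, ∀ x ∈ p.2, ∀ z ∈ p.2, x ≠ z → Df s.g x z p.1
  cov : ∀ p ∈ s.S, ∀ q ∈ s.S, p.1 < q.1 → ∃ K, (p.1, K) ∈ s.S ∧ p.2 ∩ q.2 ⊆ K ∧ K ⊆ q.2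

/-- The skeleton `r` is stronger than `s`. -/
structure SLe (r s : Skl I) : Prop where
  ε : s.ε ≤ r.ε
  X : s.X ⊆ r.X
  g : ∀ x ∈ s.X, ∀ ν < s.ε, (ν ∈ r.g x ↔ ν ∈ s.g x)
  S : s.S ⊆ r.S
  frz : ∀ q ∈ s.S, ∀ p ∈ r.S, p.1 < q.1 → p.2 ⊆ q.2 → p ∈ s.S

theorem SLe.refl (s : Skl I) : SLe s s :=
  ⟨le_rfl, subset_rfl, fun _ _ _ _ => Iff.rfl, subset_rfl, fun _ _ _ h _ _ => h⟩

theorem SLe.trans {w r s : Skl I} (h1 : SLe w r) (h2 : SLe r s) : SLe w s where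
  ε := h2.ε.trans h1.ε
  X := h2.X.trans h1.X
  g x hx ν hν := (h1.g x (h2.X hx) ν (hν.trans_le h2.ε)).trans (h2.g x hx ν hν)
  S := h2.S.trans h1.S
  frz q hq p hp h3 h4 := h2.frz q hq p (h1.frz q (h2.S hq) p hp h3 h4) h3 h4

theorem Df.symm {g : I → Set K0} {x z : I} {δ : K0} (h : Df g x z δ) : Df g z x δ := by
  obtain ⟨ν, h1, h2⟩ := h
  exact ⟨ν, h1, fun h3 => h2 h3.symm⟩

theorem Df.le {g : I → Set K0} {x z : I} {δ ε : K0} (h : Df g x z δ) (hε : δ ≤ ε) : Df g x z ε := by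
  obtain ⟨ν, h1, h2⟩ := h
  exact ⟨ν, h1.trans_le hε, h2⟩

/-- A difference below `δ` in a skeleton is one below the height; it remains in stronger
skeletons. -/
theorem Df.mono {r s : Skl I} (hs : IsSkl s) (h : SLe r s) {x z : I} (hx : x ∈ s.X) (hz : z ∈ s.X)
    {δ : K0} (hd : Df s.g x z δ) : Df r.g x z δ := by
  obtain ⟨ν, h1, h2⟩ := hd
  have h3 : ν < s.ε := by
    by_contra h4
    refine h2 ⟨fun h5 => absurd (hs.gε x ν h5) h4, fun h5 => absurd (hs.gε z ν h5) h4⟩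
  exact ⟨ν, h1, by rw [h.g x hx ν h3, h.g z hz ν h3]; exact h2⟩

/-! ### Finite parts -/

/-- Raw finite parts. -/
structure Fpt (I : Type 1) : Type 1 where
  /-- the active side conditions -/
  A : Set (K0 × Set I)
  /-- the coordinates with an approximation of the club -/
  a : Set I
  /-- the approximations -/
  u : I → Set (K0 × K0)
  /-- the collapse of the ordinals below `κ`: triples `(α, n, β)`, `β < α` -/
  v : Set (K0 × ℕ × K0)

/-- The finite set of ordinals of a finite part. -/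
def Fpt.Δ (y : Fpt I) : Set K0 := {ν | (∃ x ∈ y.a, In (y.u x) ν) ∨ ∃ K, (ν, K) ∈ y.A}

/-- Conditions of the Levy collapse. -/
structure IsColl (v : Set (K0 × ℕ × K0)) : Prop where
  fin : v.Finite
  lt : ∀ p ∈ v, p.2.2 < p.1
  uni : ∀ p ∈ v, ∀ q ∈ v, p.1 = q.1 → p.2.1 = q.2.1 → p = q

/-- `y` is a finite part over the skeleton `s`. -/
structure Over (s : Skl I) (y : Fpt I) : Prop where
  Afin : y.A.Finite
  AS : y.A ⊆ s.S
  afin : y.a.Finite
  aX : y.a ⊆ s.X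
  dis : ∀ x ∈ y.a, ∀ z ∈ y.a, x ≠ z → Df s.g x z s.ε
  u : ∀ x ∈ y.a, IsU (y.u x)
  u0 : ∀ x, x ∉ y.a → y.u x = ∅
  dec : ∀ x ∈ y.a, ∀ ν ∈ y.Δ, Dec (y.u x) ν
  v : IsColl y.v

/-- The finite part `z` is stronger than `y`; the side condition `tt` speaks of the Cohen parts of
the skeleton `r` of `z`. -/
structure YLe (r : Skl I) (z y : Fpt I) : Prop where
  A : y.A ⊆ z.A
  a : y.a ⊆ z.a
  u : ∀ x ∈ y.a, ULe (z.u x) (y.u x)
  v : y.v ⊆ z.v
  act : ∀ x ∈ z.a, x ∉ y.a → ∀ p ∈ y.A, x ∈ p.2 → In (z.u x) p.1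
  tt : ∀ x ∈ y.a, ∀ x' ∈ y.a, x ≠ x' → ∀ ν, In (z.u x) ν → In (z.u x') ν → ν ∉ y.Δ → Df r.g x x' ν

theorem YLe.refl (r : Skl I) (y : Fpt I) : YLe r y y where
  A := subset_rfl
  a := subset_rfl
  u _ _ := ULe.refl _
  v := subset_rfl
  act _ hx h := absurd hx h
  tt x hx _ _ _ _ h1 _ h3 := absurd (Or.inl ⟨x, hx, h1⟩) h3

theorem YLe.trans {w r : Skl I} {z y x : Fpt I} (hr : IsSkl r) (hz : Over w z) (hy : Over r y)
    (hwr : SLe w r) (h1 : YLe w z y) (h2 : YLe r y x) : YLe w z x where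
  A := h2.A.trans h1.A
  a := h2.a.trans h1.a
  u i hi := (h1.u i (h2.a hi)).trans (h2.u i hi)
  v := h2.v.trans h1.v
  act i hi hx p hp hip := by
    by_cases h : i ∈ y.a
    · exact (h2.act i h hx p hp hip).mono (h1.u i h)
    · exact h1.act i hi h p (h2.A hp) hip
  tt i hi j hj hij ν hiν hjν hν := by
    by_cases h : ν ∈ y.Δ
    · have h3 := In.of_dec (hz.u i (h1.a (h2.a hi))) (h1.u i (h2.a hi)) (hy.dec i (h2.a hi) ν h) hiν
      have h4 := In.of_dec (hz.u j (h1.a (h2.a hj))) (h1.u j (h2.a hj)) (hy.dec j (h2.a hj) ν h) hjν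
      exact (h2.tt i hi j hj hij ν h3 h4 hν).mono hr hwr (hy.aX (h2.a hi)) (hy.aX (h2.a hj))
    · exact h1.tt i (h2.a hi) j (h2.a hj) hij ν hiν hjν h

/-! ### The poset -/

/-- The conditions of `T`. -/
structure TC (I : Type 1) : Type 1 where
  /-- the skeleton -/
  s : Skl I
  /-- the finite part -/
  y : Fpt I
  hs : IsSkl s
  hy : Over s y

instance : Preorder (TC I) where
  le t' t := SLe t'.s t.s ∧ YLe t'.s t'.y t.y
  le_refl t := ⟨SLe.refl _, YLe.refl _ _⟩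
  le_trans p q r h1 h2 := ⟨h1.1.trans h2.1, YLe.trans q.hs p.hy q.hy h1.1 h1.2 h2.2⟩

theorem TC.le_def {t' t : TC I} : t' ≤ t ↔ SLe t'.s t.s ∧ YLe t'.s t'.y t.y := Iff.rfl

/-- The set of ordinals put into the club of a coordinate `x ∉ a` by the active side conditions. -/
def Fpt.act (y : Fpt I) (x : I) : Set K0 := {ν | ∃ K, (ν, K) ∈ y.A ∧ x ∈ K}

/-- The approximation of the club of the coordinate `x`. -/
noncomputable def Fpt.pu (y : Fpt I) (x : I) : Set (K0 × K0) := by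
  classical exact if x ∈ y.a then y.u x else uOf (y.act x)

theorem Fpt.pu_of_mem {y : Fpt I} {x : I} (h : x ∈ y.a) : y.pu x = y.u x := if_pos h

theorem Fpt.pu_of_not_mem {y : Fpt I} {x : I} (h : x ∉ y.a) : y.pu x = uOf (y.act x) := if_neg h

theorem Fpt.act_finite {y : Fpt I} (h : y.A.Finite) (x : I) : (y.act x).Finite := by
  refine (h.image Prod.fst).subset ?_
  rintro ν ⟨K, hK, _⟩
  exact ⟨(ν, K), hK, rfl⟩

theorem Over.isU_pu {s : Skl I} {y : Fpt I} (h : Over s y) (x : I) : IsU (y.pu x) := by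
  by_cases hx : x ∈ y.a
  · rw [Fpt.pu_of_mem hx]; exact h.u x hx
  · rw [Fpt.pu_of_not_mem hx]; exact isU_uOf (Fpt.act_finite h.Afin x)

/-- The projection to the coordinate `x`. -/
noncomputable def pr (x : I) (t : TC I) : UC := ⟨t.y.pu x, t.hy.isU_pu x⟩

theorem pr_val (x : I) (t : TC I) : (pr x t).1 = t.y.pu x := rfl

theorem pr_of_mem {x : I} {t : TC I} (h : x ∈ t.y.a) : (pr x t).1 = t.y.u x := Fpt.pu_of_mem h

theorem YLe.pu {r s : Skl I} {z y : Fpt I} (hz : Over s z) (h : YLe r z y) (x : I) :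
    ULe (z.pu x) (y.pu x) := by
  by_cases hx : x ∈ y.a
  · rw [Fpt.pu_of_mem hx, Fpt.pu_of_mem (h.a hx)]
    exact h.u x hx
  · rw [Fpt.pu_of_not_mem hx]
    refine ule_uOf (hz.isU_pu x) ?_
    rintro ν ⟨K, hK, hxK⟩
    by_cases hx' : x ∈ z.a
    · rw [Fpt.pu_of_mem hx']
      exact h.act x hx' hx (ν, K) hK hxK
    · rw [Fpt.pu_of_not_mem hx']
      exact in_uOf.2 (Or.inr ⟨K, h.A hK, hxK⟩)

/-- The projections are monotone. -/
theorem pr_mono (x : I) {t' t : TC I} (h : t' ≤ t) : pr x t' ≤ pr x t :=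
  YLe.pu t'.hy h.2 x

/-- All ordinals of `t` are `< i`. -/
structure TC.Bd (t : TC I) (i : K0) : Prop where
  ε : t.s.ε < i
  u : ∀ x ∈ t.y.a, ∀ p ∈ t.y.u x, p.2 < i
  v : ∀ p ∈ t.y.v, p.1 < i

/-- `N` has size at most `κ`. -/
def SzK {α : Type 1} (N : Set α) : Prop := ∃ f : α → K0, InjOn f N

end Pool.Agent.CG3
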