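import Pool.Agent.Lib.MP_99c1f3_lc.CG.T.Sz

/-!
# CG3, block T, module ExPerm: moving a small set into a set which is not small
-/

set_option autoImplicit false

namespace Pool.Agent.CG3

open Set

variable {I : Type 1}

/-- PROOF: `X \ N` is small, `N \ X` is not small (otherwise `N` is small), so there is an injection
`f` of `X \ N` into `N \ X`. Let `σ` exchange `x` and `f x` for `x ∈ X \ N` and fix everything
else. (An injection: `Cardinal.mk` of a small type is less than that of a type which is not small,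
up to lifts; or choose it by well-founded recursion.) -/
theorem exists_perm (X N : Set I) (hX : Small.{0} X) (hN : ¬ Small.{0} N) :
    ∃ σ : Equiv.Perm I, (∀ x ∈ X, x ∈ N → σ x = x) ∧ (∀ x ∈ X, x ∉ N → σ x ∈ N ∧ σ x ∉ X) := by
  classical
  have hA : Small.{0} (X \ N : Set I) := small_sub hX Set.sdiff_subset
  have hB : ¬ Small.{0} (N \ X : Set I) := by
    intro h
    apply hN
    have h1 : Small.{0} ((N \ X) ∪ X : Set I) := inferInstance
    refine small_sub h1 fun x hx => ?_
    by_cases h2 : x ∈ X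
    · exact Or.inr h2
    · exact Or.inl ⟨hx, h2⟩
  have hle : Cardinal.mk (X \ N : Set I) ≤ Cardinal.mk (N \ X : Set I) := by
    rw [Cardinal.small_iff_lift_mk_lt_univ] at hA hB
    exact Cardinal.lift_le.1 (hA.le.trans (not_lt.1 hB))
  obtain ⟨f⟩ := Cardinal.le_def _ _ |>.1 hle
  obtain ⟨g, hg⟩ : ∃ g : I → I, g = fun x => if h : x ∈ X \ N then (f ⟨x, h⟩ : I) else
      if h : ∃ a : (X \ N : Set I), (f a : I) = x then ((Classical.choose h : (X \ N : Set I)) : I) else x :=
    ⟨_, rfl⟩
  have g1 : ∀ x (h : x ∈ X \ N), g x = f ⟨x, h⟩ := by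
    intro x h
    rw [hg]
    exact dif_pos h
  have g2 : ∀ a : (X \ N : Set I), g (f a) = a := by
    intro a
    have h1 : (f a : I) ∉ X \ N := fun h => h.2 (f a).2.1
    have h2 : ∃ b : (X \ N : Set I), (f b : I) = f a := ⟨a, rfl⟩
    have h3 : g (f a) = ((Classical.choose h2 : (X \ N : Set I)) : I) := by
      rw [hg]
      exact (dif_neg h1).trans (dif_pos h2)
    rw [h3]
    exact congrArg Subtype.val (f.injective (Subtype.ext (Classical.choose_spec h2)))
  have g3 : ∀ x, x ∉ X \ N → (¬ ∃ a : (X \ N : Set I), (f a : I) = x) → g x = x := by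
    intro x h1 h2
    rw [hg]
    exact (dif_neg h1).trans (dif_neg h2)
  have hinv : Function.Involutive g := by
    intro x
    by_cases h : x ∈ X \ N
    · rw [g1 x h, g2]
    · by_cases h2 : ∃ a : (X \ N : Set I), (f a : I) = x
      · obtain ⟨a, rfl⟩ := h2
        rw [g2, g1 _ a.2]
      · rw [g3 x h h2, g3 x h h2]
  refine ⟨hinv.toPerm g, fun x hx hxN => ?_, fun x hx hxN => ?_⟩
  · change g x = x
    refine g3 x (fun h => h.2 hxN) ?_
    rintro ⟨a, rfl⟩
    exact (f a).2.2 hx
  · change g x ∈ N ∧ g x ∉ X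
    rw [g1 x ⟨hx, hxN⟩]
    exact (f ⟨x, hx, hxN⟩).2

end Pool.Agent.CG3
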