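import Pool.Agent.Lib.MP_99c1f3_lc.CG.T.Sz

/-!
# CG3, block T, module Top: the side condition on top
-/

set_option autoImplicit false

namespace Pool.Agent.CG3

open Set

variable {I : Type 1}

/-- The skeleton with the side condition `(δ, K)` on top and the Cohen parts `G`. -/
def topS (s : Skl I) (δ : K0) (K : Set I) (G : I → Set K0) : Skl I := ⟨δ, K, G, insert (δ, K) s.S⟩

/-- The finite part with the active side condition `(δ, K)` and `δ` in all clubs. -/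
def topY (y : Fpt I) (δ : K0) (K : Set I) : Fpt I :=
  ⟨insert (δ, K) y.A, y.a, fun x => {p | p ∈ y.u x ∨ (x ∈ y.a ∧ p = (δ, δ))}, y.v⟩

/-- The hypotheses of the top lemma. -/
structure TopH (s : Skl I) (δ : K0) (K : Set I) (G : I → Set K0) : Prop where
  smK : Small.{0} K
  ε : s.ε ≤ δ
  lt : ∀ p ∈ s.S, p.1 < δ
  X : s.X ⊆ K
  Gε : ∀ x, ∀ ν ∈ G x, ν < δ
  GX : ∀ x, x ∉ K → G x = ∅
  ext : ∀ x ∈ s.X, ∀ ν < s.ε, (ν ∈ G x ↔ ν ∈ s.g x)
  inj : ∀ x ∈ K, ∀ z ∈ K, x ≠ z → Df G x z δ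

/-- PROOF: `dist` for old pairs: the difference in `s.g` below `p.1 < δ` is at some `ν < s.ε`
(by `gε`), and `ext` (as `p.2 ⊆ s.X`); for the new pair `inj`. `cov` for an old `p` and the new pair
`q = (δ, K)`: take `p.2`. For the new `p` and an old `q`: `p.1 = δ < q.1` is impossible. `frz`: the
new pair has `δ < q.1` for no old `q`. -/
theorem isSkl_top {s : Skl I} {δ : K0} {K : Set I} {G : I → Set K0} (hs : IsSkl s)
    (h : TopH s δ K G) : IsSkl (topS s δ K G) ∧ SLe (topS s δ K G) s := by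
  refine ⟨⟨h.smK, ?_, h.Gε, h.GX, ?_, ?_, ?_, ?_⟩, ⟨h.ε, h.X, h.ext, ?_, ?_⟩⟩
  · have := hs.smS
    exact small_insert _ _
  · rintro p (rfl | hp)
    · exact le_rfl
    · exact (h.lt p hp).le
  · rintro p (rfl | hp)
    · exact subset_rfl
    · exact (hs.sub p hp).trans h.X
  · rintro p (rfl | hp) x hx z hz hxz
    · exact h.inj x hx z hz hxz
    · obtain ⟨ν, h1, h2⟩ := hs.dist p hp x hx z hz hxz
      have h3 : ν < s.ε := h1.trans_le (hs.le p hp)
      refine ⟨ν, h1, fun h4 => h2 ?_⟩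
      rw [← h.ext x (hs.sub p hp hx) ν h3, ← h.ext z (hs.sub p hp hz) ν h3]
      exact h4
  · rintro p (rfl | hp) q (rfl | hq) hpq
    · exact absurd hpq (lt_irrefl _)
    · exact absurd (hpq.trans (h.lt q hq)) (lt_irrefl _)
    · exact ⟨p.2, Or.inr hp, inter_subset_left, (hs.sub p hp).trans h.X⟩
    · obtain ⟨K', h1, h2, h3⟩ := hs.cov p hp q hq hpq
      exact ⟨K', Or.inr h1, h2, h3⟩
  · exact subset_insert _ _
  · rintro q hq p (rfl | hp) hpq _
    · exact absurd (hpq.trans (h.lt q hq)) (lt_irrefl _)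
    · exact hp

/-- PROOF: `Δ` of the new finite part is `insert δ y.Δ`; elements of `y.Δ` are `< δ` (for `In` by
`IsU.le` and `hb`, for `A` by `AS` and `TopH.lt`), so they are decided by `y.u x` and `δ` is in the
club for all `x ∈ a`. `dis` by `inj`. `IsU` of `insert (δ, δ) (y.u x)` since all bounds are `< δ`.
`tt`: `ν ∉ y.Δ` and `In` for the new finite part gives `ν = δ`, then `inj` (`y.a ⊆ s.X ⊆ K`). `act`:
no new coordinates. -/
theorem over_top {s : Skl I} {y : Fpt I} {δ : K0} {K : Set I} {G : I → Set K0} (hs : IsSkl s)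
    (hy : Over s y) (h : TopH s δ K G) (hb : ∀ x ∈ y.a, ∀ p ∈ y.u x, p.2 < δ) :
    Over (topS s δ K G) (topY y δ K) ∧ YLe (topS s δ K G) (topY y δ K) y := by
  have hin : ∀ x ν, In ((topY y δ K).u x) ν → In (y.u x) ν ∨ (x ∈ y.a ∧ ν = δ) := by
    rintro x ν ⟨p, hp | hp, rfl⟩
    · exact Or.inl ⟨p, hp, rfl⟩
    · exact Or.inr ⟨hp.1, by rw [hp.2]⟩
  have hδ : ∀ x ∈ y.a, In ((topY y δ K).u x) δ := fun x hx => ⟨(δ, δ), Or.inr ⟨hx, rfl⟩, rfl⟩
  have hle : ∀ x, ULe ((topY y δ K).u x) (y.u x) := fun x p hp => ⟨p, Or.inl hp, rfl, le_rfl⟩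
  refine ⟨⟨hy.Afin.insert _, insert_subset_insert hy.AS, hy.afin, hy.aX.trans h.X, ?_, ?_, ?_, ?_,
    hy.v⟩, ⟨subset_insert _ _, subset_rfl, fun x _ => hle x, subset_rfl,
    fun x hx hx' => absurd hx hx', ?_⟩⟩
  · intro x hx z hz hxz
    exact h.inj x (h.X (hy.aX hx)) z (h.X (hy.aX hz)) hxz
  · intro x hx
    have hu := hy.u x hx
    have h0 : ∀ p ∈ y.u x, p.1 < δ := fun p hp => (hu.le p hp).trans_lt (hb x hx p hp)
    refine ⟨?_, ?_, ?_, ?_, ?_⟩
    · refine (hu.fin.insert (δ, δ)).subset ?_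
      rintro p (hp | hp)
      · exact Or.inr hp
      · exact Or.inl hp.2
    · exact hu.zero.mono (hle x)
    · rintro p (hp | ⟨_, rfl⟩)
      · exact hu.le p hp
      · exact le_rfl
    · rintro p (hp | ⟨_, rfl⟩) q (hq | ⟨_, rfl⟩) hpq
      · exact hu.uni p hp q hq hpq
      · exact absurd hpq (h0 p hp).ne
      · exact absurd hpq.symm (h0 q hq).ne
      · rfl
    · rintro p (hp | ⟨_, rfl⟩) q (hq | ⟨_, rfl⟩) hpq
      · exact hu.sep p hp q hq hpq
      · exact hb x hx p hp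
      · exact absurd (hpq.trans (h0 q hq)) (lt_irrefl _)
      · exact absurd hpq (lt_irrefl _)
  · intro x hx
    apply eq_empty_iff_forall_notMem.2
    rintro p (hp | hp)
    · have h1 := hy.u0 x hx
      rw [h1] at hp
      exact hp
    · exact hx hp.1
  · intro x hx ν hν
    rcases hν with ⟨z, hz, h1⟩ | ⟨K', h1⟩
    · rcases hin z ν h1 with h2 | h2
      · exact (hy.dec x hx ν (Or.inl ⟨z, hz, h2⟩)).mono (hle x)
      · rw [h2.2]
        exact Or.inl (hδ x hx)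
    · rcases h1 with h1 | h1
      · have h2 : ν = δ := congrArg Prod.fst h1
        rw [h2]
        exact Or.inl (hδ x hx)
      · exact (hy.dec x hx ν (Or.inr ⟨K', h1⟩)).mono (hle x)
  · intro x hx z hz hxz ν h1 _ h3
    rcases hin x ν h1 with h2 | h2
    · exact absurd (Or.inl ⟨x, hx, h2⟩) h3
    · rw [h2.2]
      exact h.inj x (h.X (hy.aX hx)) z (h.X (hy.aX hz)) hxz

/-- Below a condition which has the active side condition `(δ, K)` and `δ` in all its clubs of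
coordinates in `K`, `δ` is in the club of every coordinate in `K`.

PROOF: `pr x t'` for `x ∈ t'.y.a`: if `x ∈ t.y.a` then `h2` and `YLe.u`, otherwise `YLe.act`. For
`x ∉ t'.y.a`: `in_uOf`, since `(δ, K) ∈ t'.y.A`. -/
theorem in_of_top {t t' : TC I} {δ : K0} {K : Set I} (h1 : (δ, K) ∈ t.y.A)
    (h2 : ∀ x ∈ t.y.a, x ∈ K → In (t.y.u x) δ) (h : t' ≤ t) {x : I} (hx : x ∈ K) :
    In (pr x t').1 δ := by
  by_cases hx' : x ∈ t'.y.a
  · rw [pr_of_mem hx']
    by_cases hxt : x ∈ t.y.a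
    · exact (h2 x hxt hx).mono (h.2.u x hxt)
    · exact h.2.act x hx' hxt (δ, K) h1 hx
  · rw [pr_val, Fpt.pu_of_not_mem hx']
    exact in_uOf.2 (Or.inr ⟨K, h.2.A h1, hx⟩)

/-- PROOF: `G x = s.g x ∪ {s.ε + f x}` for `x ∈ K`, `∅` for `x ∉ K`. For `x ≠ z` in `K` the ordinal
`s.ε + f x < i` is in `G x` and not in `G z`: elements of `s.g z` are `< s.ε`, and
`s.ε + f x = s.ε + f z` gives `f x = f z`. `lt`: `p.1 ≤ s.ε < i`. -/
theorem exists_topH {s : Skl I} (hs : IsSkl s) {i : K0} {K : Set I} {f : I → K0}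
    (hf : InjOn f K) (hfi : ∀ x ∈ K, f x < i) (hi : ∀ α < i, ∀ β < i, α + β < i)
    (hX : s.X ⊆ K) (hε : s.ε < i) : ∃ G, TopH s i K G := by
  refine ⟨fun x => {ν | x ∈ K ∧ (ν ∈ s.g x ∨ ν = s.ε + f x)}, ?_, hε.le, ?_, hX, ?_, ?_, ?_, ?_⟩
  · exact small_iff_bd.2 ⟨i, f, hf, hfi⟩
  · exact fun p hp => (hs.le p hp).trans_lt hε
  · rintro x ν ⟨hx, h1 | h1⟩
    · exact (hs.gε x ν h1).trans hε
    · rw [h1]
      exact hi _ hε _ (hfi x hx)
  · intro x hx
    apply eq_empty_iff_forall_notMem.2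
    exact fun ν hν => hx hν.1
  · intro x hx ν hν
    constructor
    · rintro ⟨_, h1 | h1⟩
      · exact h1
      · rw [h1] at hν
        exact absurd hν (not_lt.2 (le_self_add))
    · exact fun h1 => ⟨hX hx, Or.inl h1⟩
  · intro x hx z hz hxz
    refine ⟨s.ε + f x, hi _ hε _ (hfi x hx), fun h1 => ?_⟩
    obtain ⟨_, h2 | h2⟩ := h1.1 ⟨hx, Or.inr rfl⟩
    · exact absurd (hs.gε z _ h2) (not_lt.2 (le_self_add))
    · exact hxz (hf hx hz (by simpa using h2))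

/-- The top lemma. PROOF: `exists_topH`, `isSkl_top`, `over_top`, `in_of_top`. -/
theorem top (t : TC I) (i : K0) (K : Set I) (f : I → K0) (hf : InjOn f K)
    (hfi : ∀ x ∈ K, f x < i) (hi : ∀ α < i, ∀ β < i, α + β < i) (hX : t.s.X ⊆ K) (hb : t.Bd i) :
    ∃ t' ≤ t, ∀ t'' ≤ t', ∀ x ∈ K, In (pr x t'').1 i := by
  obtain ⟨G, h⟩ := exists_topH t.hs hf hfi hi hX hb.ε
  have h1 := isSkl_top t.hs h
  have h2 := over_top t.hs t.hy h hb.u
  refine ⟨⟨topS t.s i K G, topY t.y i K, h1.1, h2.1⟩, ⟨h1.2, h2.2⟩, fun t'' ht'' x hx => ?_⟩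
  exact in_of_top (t := ⟨topS t.s i K G, topY t.y i K, h1.1, h2.1⟩) (Or.inl rfl)
    (fun z hz _ => ⟨(i, i), Or.inr ⟨hz, rfl⟩, rfl⟩) ht'' hx

end Pool.Agent.CG3
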