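import Pool.Agent.Lib.MP_99c1f3_lc.CG.T.Amalg

/-!
# CG3, block T, module U: finite approximations of a club, putting an ordinal into the club
-/

set_option autoImplicit false

namespace Pool.Agent.CG3

open Set

variable {u : Set (K0 × K0)} {ν : K0}

theorem IsU.not_out (hu : IsU u) (h : In u ν) : ¬ Out u ν := by
  rintro ⟨q, hq, h1, h2⟩
  obtain ⟨p, hp, rfl⟩ := h
  exact absurd h2 (not_le.2 (hu.sep q hq p hp h1))

theorem In.le_bd (hu : IsU u) (h : In u ν) {γ : K0} (hb : ∀ p ∈ u, p.2 < γ) : ν < γ := by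
  obtain ⟨p, hp, rfl⟩ := h
  exact (hu.le p hp).trans_lt (hb p hp)

/-- An ordinal which is not `Out` can be put into the club. -/
theorem exists_in (hu : IsU u) (h : ¬ Out u ν) : ∃ v, IsU v ∧ ULe v u ∧ In v ν ∧
    ∀ β, In v β → In u β ∨ β = ν := by
  by_cases hi : In u ν
  · exact ⟨u, hu, ULe.refl u, hi, fun β hβ => Or.inl hβ⟩
  · refine ⟨insert (ν, ν) u, ?_, fun p hp => ⟨p, Or.inr hp, rfl, le_rfl⟩, ⟨_, Or.inl rfl, rfl⟩, ?_⟩
    · refine ⟨hu.fin.insert _, ?_, ?_, ?_, ?_⟩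
      · obtain ⟨p, hp, h0⟩ := hu.zero
        exact ⟨p, Or.inr hp, h0⟩
      · rintro p (rfl | hp)
        · exact le_rfl
        · exact hu.le p hp
      · rintro p (rfl | hp) q (rfl | hq) hpq
        · rfl
        · exact absurd ⟨q, hq, hpq.symm⟩ hi
        · exact absurd ⟨p, hp, hpq⟩ hi
        · exact hu.uni p hp q hq hpq
      · rintro p (rfl | hp) q (rfl | hq) hpq
        · exact hpq
        · exact hpq
        · by_contra h1
          exact h ⟨p, hp, hpq, not_lt.1 h1⟩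
        · exact hu.sep p hp q hq hpq
    · rintro β ⟨p, (rfl | hp), rfl⟩
      · exact Or.inr rfl
      · exact Or.inl ⟨p, hp, rfl⟩

end Pool.Agent.CG3
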