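import Pool.Agent.Lib.MP_99c1f3_lc.CG.T.Lim
import Pool.Agent.Lib.MP_99c1f3_lc.CG.T.Top
import Pool.Agent.Lib.MP_99c1f3_lc.CG.T.U

/-!
# CG3, block T, module LemA: common definitions for Lemma A
-/

set_option autoImplicit false

namespace Pool.Agent.CG3

open Set

variable {I : Type 1}

/-- A skeleton which is ready for the top side condition: `ε` is larger than all ordinals in side
conditions and the Cohen parts are different below `ε`. -/
structure Rdy (s : Skl I) : Prop where
  skl : IsSkl s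
  pos : 0 < s.ε
  lt : ∀ p ∈ s.S, p.1 < s.ε
  inj : ∀ x ∈ s.X, ∀ z ∈ s.X, x ≠ z → Df s.g x z s.ε

theorem Rdy.topH {s : Skl I} (h : Rdy s) : TopH s s.ε s.X s.g where
  smK := h.skl.smX
  ε := le_rfl
  lt := h.lt
  X := subset_rfl
  Gε := h.skl.gε
  GX := h.skl.gX
  ext _ _ _ _ := Iff.rfl
  inj := h.inj

/-- There is a condition over `s` with finite part `z` which is in `D`. -/
def InD (D : Set (TC I)) (s : Skl I) (z : Fpt I) : Prop :=
  ∃ (hs : IsSkl s) (hz : Over s z), (⟨s, z, hs, hz⟩ : TC I) ∈ D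

/-- Finite parts over `s` are finite parts over stronger skeletons. -/
theorem Over.mono {r s : Skl I} {y : Fpt I} (hs : IsSkl s) (hy : Over s y) (h : SLe r s) :
    Over r y where
  Afin := hy.Afin
  AS := hy.AS.trans h.S
  afin := hy.afin
  aX := hy.aX.trans h.X
  dis x hx z hz hxz := ((hy.dis x hx z hz hxz).mono hs h (hy.aX hx) (hy.aX hz)).le h.ε
  u := hy.u
  u0 := hy.u0
  dec := hy.dec
  v := hy.v

/-- The order of finite parts is preserved by stronger skeletons. -/
theorem YLe.skl {w r : Skl I} {z y : Fpt I} (hr : IsSkl r) (hy : Over r y) (h : YLe r z y)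
    (hw : SLe w r) : YLe w z y where
  A := h.A
  a := h.a
  u := h.u
  v := h.v
  act := h.act
  tt x hx x' hx' hxx ν h1 h2 h3 :=
    (h.tt x hx x' hx' hxx ν h1 h2 h3).mono hr hw (hy.aX hx) (hy.aX hx')

end Pool.Agent.CG3
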