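import Pool.Agent.Lib.MP_99c1f3_lc.CG.T.Perm
import Pool.Agent.Lib.MP_99c1f3_lc.CG.T.ExPerm
import Pool.Agent.Lib.MP_99c1f3_lc.CG.T.LemA

/-!
# CG3, block T, module Red: the reduction lemma
-/

set_option autoImplicit false

namespace Pool.Agent.CG3

open Set

variable {I : Type 1}

/-- The retraction used in `reduction`. -/
private noncomputable def redR (M : Set I) (σ : Equiv.Perm I) (x : I) : I := by
  classical exact if x ∈ M then x else σ x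

private theorem redR_mem {M : Set I} (σ : Equiv.Perm I) {x : I} (h : x ∈ M) :
    redR M σ x = x := if_pos h

private theorem redR_eq {M : Set I} {σ : Equiv.Perm I} {x : I} (h : x ∈ M → σ x = x) :
    redR M σ x = σ x := by
  by_cases h1 : x ∈ M
  · rw [redR_mem σ h1, h h1]
  · exact if_neg h1

/-- The approximations used in `reduction`. -/
private noncomputable def redU (y : Fpt I) (a : Set I) (ρ : I → I) (x : I) :
    Set (K0 × K0) := by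
  classical exact if x ∈ a then y.u (ρ x) else ∅

private theorem redU_mem {y : Fpt I} {a : Set I} {ρ : I → I} {x : I} (h : x ∈ a) :
    redU y a ρ x = y.u (ρ x) := if_pos h

private theorem redU_not_mem {y : Fpt I} {a : Set I} {ρ : I → I} {x : I} (h : x ∉ a) :
    redU y a ρ x = ∅ := if_neg h

private theorem red_symm_image {σ : Equiv.Perm I} {K : Set I} (h : ∀ x ∈ K, σ x = x) :
    σ.symm '' K = K := by
  apply subset_antisymm
  · rintro _ ⟨x, hx, rfl⟩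
    have h1 : σ.symm x = x := by
      rw [Equiv.symm_apply_eq]
      exact (h x hx).symm
    rw [h1]
    exact hx
  · intro x hx
    refine ⟨x, hx, ?_⟩
    rw [Equiv.symm_apply_eq]
    exact (h x hx).symm

private theorem red_image {σ : Equiv.Perm I} {K : Set I} (h : ∀ x ∈ K, σ x = x) :
    σ '' K = K := by
  apply subset_antisymm
  · rintro _ ⟨x, hx, rfl⟩
    rw [h x hx]
    exact hx
  · intro x hx
    exact ⟨x, hx, h x hx⟩

/-- The reduction lemma.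

PROOF. Write `R = t.s.X ∩ t'.s.X`. For `x ∈ t.s.X ∩ N` we have `σ x = x`; so `R ⊆ N` is fixed
pointwise, and for `x ∈ t.s.X`: `x ∈ R` iff `x ∈ N` iff `x ∈ t'.s.X` (as `σ '' t.s.X ⊆ t'.s.X ⊆ N`,
and `x ∈ t.s.X ∩ N` gives `x = σ x ∈ t'.s.X`). By `perm_symm` facts: `(δ, K) ∈ t.s.S` gives
`(δ, σ '' K) ∈ t'.s.S`; `g'` at `σ x` extends `t.s.g x`.
Skeleton of `t''`: `X = t.s.X ∪ t'.s.X`, `S = t.s.S ∪ t'.s.S`; let `h : I → Set K0` be
`h x = t'.s.g x` for `x ∈ t'.s.X`, `h x = t'.s.g (σ x)` for `x ∈ t.s.X`, `x ∉ N`, `∅` otherwise; `f`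
injective on `X` with values `< γ0` (`small_iff_bd`); `ε = t'.s.ε + γ0`,
`g x = h x ∪ {t'.s.ε + f x}` for `x ∈ X`, so all `x ≠ z` in `X` are different below `ε`.
`dist`: for `(δ, K) ∈ t.s.S`, `x ≠ z ∈ K`: the difference of `t.s.g` at `ν < t.s.ε` remains.
`cov`. `p = (δ', K') ∈ t.s.S`, `q = (δ, K) ∈ t'.s.S`, `δ' < δ`: `(δ', σ '' K') ∈ t'.s.S`, `cov` of
`t'` gives `K₁` with `σ '' K' ∩ K ⊆ K₁ ⊆ K`; `K' ∩ K ⊆ R` is fixed by `σ`, so `K' ∩ K ⊆ K₁`.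
`p = (δ', K') ∈ t'.s.S`, `q = (δ, K) ∈ t.s.S`: `cov` of `t'` for `p`, `(δ, σ '' K)` gives `K₁` with
`K' ∩ σ '' K ⊆ K₁ ⊆ σ '' K`, `(δ', K₁) ∈ t'.s.S`; by `frz` of `t' ≤ t.perm σ` it is in
`(t.perm σ).s.S`, so `K₁ = σ '' K₂`, `(δ', K₂) ∈ t.s.S`, `K₂ ⊆ K`; for `x ∈ K' ∩ K`: `x ∈ R`,
`σ x = x ∈ K' ∩ σ '' K ⊆ σ '' K₂`, so `x ∈ K₂`.
`frz` for `t'' ≤ t`: `(δ', K') ∈ t'.s.S`, `(δ, K) ∈ t.s.S`, `δ' < δ`, `K' ⊆ K`: then `K' ⊆ R`,
`σ '' K' = K'`, `K' ⊆ σ '' K`, so `(δ', K') ∈ (t.perm σ).s.S` by `frz`, so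
`K' = σ '' K₂` with `(δ', K₂) ∈ t.s.S`, and `K₂ = K'` (`σ` is injective and fixes `K'`). `frz` for
`t'' ≤ t'`: `(δ', K') ∈ t.s.S`, `(δ, K) ∈ t'.s.S`, `K' ⊆ K ⊆ t'.s.X`: `K' ⊆ R` so
`(δ', K') = (δ', σ '' K') ∈ t'.s.S`.
Finite part: `A = t.y.A ∪ t'.y.A`, `a = t.y.a ∪ t'.y.a`, `u x = t'.y.u x` for `x ∈ t'.y.a`,
`u x = t'.y.u (σ x)` for `x ∈ t.y.a`, `x ∉ N`, `∅` otherwise; `v = t'.y.v`. For `x ∈ t.y.a`:
`σ x ∈ t'.y.a`. `Δ` is `t'.y.Δ` (that of `t` is that of `t.perm σ`, a subset). `dis`: all `x ≠ z` in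
`X` differ.
`act` for `t'' ≤ t`: `x ∈ t'.y.a`, `x ∉ t.y.a`, `(δ, K) ∈ t.y.A`, `x ∈ K`: `x ∈ R`, `σ x = x`,
`x ∈ σ '' K`, `x ∉ σ '' t.y.a`, so `act` of `t' ≤ t.perm σ`. `act` for `t'' ≤ t'`: `x ∈ t.y.a`,
`x ∉ t'.y.a`, `(δ, K) ∈ t'.y.A`, `x ∈ K`: `x ∈ N`, so `x = σ x ∈ t'.y.a`, a contradiction.
`tt` for `t'' ≤ t`: `x ≠ x'` in `t.y.a`: `tt` of `t' ≤ t.perm σ` for `σ x`, `σ x'`. `tt` for
`t'' ≤ t'`: all `In` points are in `Δ`. -/
theorem reduction {t : TC I} {N : Set I} {σ : Equiv.Perm I}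
    (h1 : ∀ x ∈ t.s.X, x ∈ N → σ x = x) (h2 : ∀ x ∈ t.s.X, x ∉ N → σ x ∈ N ∧ σ x ∉ t.s.X)
    {t' : TC I} (h : t' ≤ t.perm σ) (hN : t'.s.X ⊆ N) : ∃ t'', t'' ≤ t ∧ t'' ≤ t' := by
  classical
  obtain ⟨hS, hY⟩ := h
  -- the basic facts
  have F1 : ∀ x ∈ t.s.X, σ x ∈ t'.s.X := fun x hx => hS.X ⟨x, hx, rfl⟩
  have F2 : ∀ x ∈ t.s.X, x ∈ t'.s.X → σ x = x := fun x hx hx' => h1 x hx (hN hx')
  have F3 : ∀ x ∈ t.s.X, ∀ ν < t.s.ε, (ν ∈ t'.s.g (σ x) ↔ ν ∈ t.s.g x) := by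
    intro x hx ν hν
    have h3 := hS.g (σ x) ⟨x, hx, rfl⟩ ν hν
    have h4 : (t.perm σ).s.g (σ x) = t.s.g x := by
      show t.s.g (σ.symm (σ x)) = t.s.g x
      rw [Equiv.symm_apply_apply]
    rw [h4] at h3
    exact h3
  have F4 : ∀ p ∈ t.s.S, (p.1, σ '' p.2) ∈ t'.s.S := fun p hp => hS.S ⟨p, hp, rfl⟩
  have F5 : ∀ q ∈ t.s.S, ∀ p ∈ t'.s.S, p.1 < q.1 → p.2 ⊆ σ '' q.2 →
      (p.1, σ.symm '' p.2) ∈ t.s.S := by
    intro q hq p hp h3 h4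
    exact mem_pmP.1 (hS.frz (pmP σ q) ⟨q, hq, rfl⟩ p hp h3 h4)
  have F6 : ∀ x ∈ t.y.a, σ x ∈ t'.y.a := fun x hx => hY.a ⟨x, hx, rfl⟩
  have hε : t.s.ε ≤ t'.s.ε := hS.ε
  -- the retraction
  obtain ⟨ρ, R1, R2⟩ : ∃ ρ : I → I, (∀ x ∈ t'.s.X, ρ x = x) ∧ ∀ x ∈ t.s.X, ρ x = σ x :=
    ⟨redR t'.s.X σ, fun x hx => redR_mem σ hx, fun x hx => redR_eq (F2 x hx)⟩
  -- the sets
  have hX : Small.{0} (t.s.X ∪ t'.s.X : Set I) := by
    have := t.hs.smX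
    have := t'.hs.smX
    exact small_union _ _
  have hSS : Small.{0} (t.s.S ∪ t'.s.S : Set (K0 × Set I)) := by
    have := t.hs.smS
    have := t'.hs.smS
    exact small_union _ _
  obtain ⟨γ, f, hf, hfγ⟩ := small_iff_bd.1 hX
  let X : Set I := t.s.X ∪ t'.s.X
  let g : I → Set K0 := fun x => {ν | x ∈ X ∧ (ν ∈ t'.s.g (ρ x) ∨ ν = t'.s.ε + f x)}
  have hle : t'.s.ε ≤ t'.s.ε + γ := le_self_add
  have hg : ∀ x ∈ X, ∀ ν < t'.s.ε, (ν ∈ g x ↔ ν ∈ t'.s.g (ρ x)) := by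
    intro x hx ν hν
    refine ⟨fun h3 => h3.2.elim id fun h4 => ?_, fun h3 => ⟨hx, Or.inl h3⟩⟩
    rw [h4] at hν
    exact absurd le_self_add (not_le.2 hν)
  have hg1 : ∀ x ∈ t.s.X, ∀ ν < t.s.ε, (ν ∈ g x ↔ ν ∈ t.s.g x) := by
    intro x hx ν hν
    rw [hg x (Or.inl hx) ν (hν.trans_le hε), R2 x hx]
    exact F3 x hx ν hν
  have hg2 : ∀ x ∈ t'.s.X, ∀ ν < t'.s.ε, (ν ∈ g x ↔ ν ∈ t'.s.g x) := by
    intro x hx ν hν
    rw [hg x (Or.inr hx) ν hν, R1 x hx]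
  let s : Skl I := ⟨t'.s.ε + γ, X, g, t.s.S ∪ t'.s.S⟩
  have hs : IsSkl s := by
    refine ⟨hX, hSS, ?_, ?_, ?_, ?_, ?_, ?_⟩
    · rintro x ν ⟨hx, h3 | h3⟩
      · exact (t'.hs.gε _ ν h3).trans_le hle
      · rw [h3]
        exact (add_lt_add_iff_left _).2 (hfγ x hx)
    · intro x hx
      apply eq_empty_iff_forall_notMem.2
      rintro ν ⟨h3, _⟩
      exact hx h3
    · rintro p (hp | hp)
      · exact ((t.hs.le p hp).trans hε).trans hle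
      · exact (t'.hs.le p hp).trans hle
    · rintro p (hp | hp)
      · exact (t.hs.sub p hp).trans subset_union_left
      · exact (t'.hs.sub p hp).trans subset_union_right
    · rintro p (hp | hp) x hx z hz hxz
      · obtain ⟨ν, h3, h4⟩ := t.hs.dist p hp x hx z hz hxz
        have h5 := h3.trans_le (t.hs.le p hp)
        refine ⟨ν, h3, ?_⟩
        show ¬ (ν ∈ g x ↔ ν ∈ g z)
        rw [hg1 x (t.hs.sub p hp hx) ν h5, hg1 z (t.hs.sub p hp hz) ν h5]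
        exact h4
      · obtain ⟨ν, h3, h4⟩ := t'.hs.dist p hp x hx z hz hxz
        have h5 := h3.trans_le (t'.hs.le p hp)
        refine ⟨ν, h3, ?_⟩
        show ¬ (ν ∈ g x ↔ ν ∈ g z)
        rw [hg2 x (t'.hs.sub p hp hx) ν h5, hg2 z (t'.hs.sub p hp hz) ν h5]
        exact h4
    · rintro p (hp | hp) q (hq | hq) hpq
      · obtain ⟨K, h3, h4, h5⟩ := t.hs.cov p hp q hq hpq
        exact ⟨K, Or.inl h3, h4, h5⟩
      · obtain ⟨K, h3, h4, h5⟩ := t'.hs.cov _ (F4 p hp) q hq hpq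
        refine ⟨K, Or.inr h3, ?_, h5⟩
        rintro x ⟨hx, hx'⟩
        exact h4 ⟨⟨x, hx, F2 x (t.hs.sub p hp hx) (t'.hs.sub q hq hx')⟩, hx'⟩
      · obtain ⟨K, h3, h4, h5⟩ := t'.hs.cov p hp _ (F4 q hq) hpq
        refine ⟨σ.symm '' K, Or.inl (F5 q hq _ h3 hpq h5), ?_, ?_⟩
        · rintro x ⟨hx, hx'⟩
          have h6 := F2 x (t.hs.sub q hq hx') (t'.hs.sub p hp hx)
          refine ⟨x, h4 ⟨hx, ⟨x, hx', h6⟩⟩, ?_⟩
          rw [Equiv.symm_apply_eq]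
          exact h6.symm
        · rintro _ ⟨x, hx, rfl⟩
          obtain ⟨z, hz, rfl⟩ := h5 hx
          rw [Equiv.symm_apply_apply]
          exact hz
      · obtain ⟨K, h3, h4, h5⟩ := t'.hs.cov p hp q hq hpq
        exact ⟨K, Or.inr h3, h4, h5⟩
  have hs1 : SLe s t.s := by
    refine ⟨hε.trans hle, subset_union_left, hg1, subset_union_left, ?_⟩
    rintro q hq p (hp | hp) h3 h4
    · exact hp
    · have h5 : ∀ x ∈ p.2, σ x = x := fun x hx =>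
        F2 x (t.hs.sub q hq (h4 hx)) (t'.hs.sub p hp hx)
      have h6 := F5 q hq p hp h3 (fun x hx => ⟨x, h4 hx, h5 x hx⟩)
      rw [red_symm_image h5] at h6
      exact h6
  have hs2 : SLe s t'.s := by
    refine ⟨hle, subset_union_right, hg2, subset_union_right, ?_⟩
    rintro q hq p (hp | hp) h3 h4
    · have h5 : ∀ x ∈ p.2, σ x = x := fun x hx =>
        F2 x (t.hs.sub p hp hx) (t'.hs.sub q hq (h4 hx))
      have h6 := F4 p hp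
      rw [red_image h5] at h6
      exact h6
    · exact hp
  -- the finite part
  let a : Set I := t.y.a ∪ t'.y.a
  let y : Fpt I := ⟨t.y.A ∪ t'.y.A, a, redU t'.y a ρ, t'.y.v⟩
  have hρ : ∀ x ∈ a, ρ x ∈ t'.y.a := by
    rintro x (hx | hx)
    · rw [R2 x (t.hy.aX hx)]
      exact F6 x hx
    · rw [R1 x (t'.hy.aX hx)]
      exact hx
  have hu : ∀ x ∈ a, y.u x = t'.y.u (ρ x) := fun x hx => redU_mem hx
  have hu1 : ∀ x ∈ t.y.a, y.u x = t'.y.u (σ x) := by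
    intro x hx
    rw [hu x (Or.inl hx), R2 x (t.hy.aX hx)]
  have hu2 : ∀ x ∈ t'.y.a, y.u x = t'.y.u x := by
    intro x hx
    rw [hu x (Or.inr hx), R1 x (t'.hy.aX hx)]
  have hΔ : ∀ ν ∈ y.Δ, ν ∈ t'.y.Δ := by
    rintro ν (⟨x, hx, h3⟩ | ⟨K, h3 | h3⟩)
    · rw [hu x hx] at h3
      exact Or.inl ⟨ρ x, hρ x hx, h3⟩
    · exact Or.inr ⟨σ '' K, hY.A ⟨_, h3, rfl⟩⟩
    · exact Or.inr ⟨K, h3⟩
  have hy : Over s y := by
    refine ⟨t.hy.Afin.union t'.hy.Afin, ?_, t.hy.afin.union t'.hy.afin, ?_, ?_, ?_, ?_, ?_,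
      t'.hy.v⟩
    · exact union_subset_union t.hy.AS t'.hy.AS
    · exact union_subset_union t.hy.aX t'.hy.aX
    · intro x hx z hz hxz
      have hx' : x ∈ X := union_subset_union t.hy.aX t'.hy.aX hx
      have hz' : z ∈ X := union_subset_union t.hy.aX t'.hy.aX hz
      refine ⟨t'.s.ε + f x, (add_lt_add_iff_left _).2 (hfγ x hx'), fun h3 => ?_⟩
      rcases (h3.1 ⟨hx', Or.inr rfl⟩).2 with h4 | h4
      · exact absurd le_self_add (not_le.2 (t'.hs.gε _ _ h4))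
      · exact hxz (hf hx' hz' (add_left_cancel h4))
    · intro x hx
      rw [hu x hx]
      exact t'.hy.u _ (hρ x hx)
    · intro x hx
      exact redU_not_mem hx
    · intro x hx ν hν
      rw [hu x hx]
      exact t'.hy.dec _ (hρ x hx) ν (hΔ ν hν)
  refine ⟨⟨s, y, hs, hy⟩, ⟨hs1, ?_⟩, ⟨hs2, ?_⟩⟩
  · refine ⟨subset_union_left, subset_union_left, ?_, hY.v, ?_, ?_⟩
    · intro x hx
      show ULe (y.u x) (t.y.u x)
      rw [hu1 x hx]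
      have h3 := hY.u (σ x) ⟨x, hx, rfl⟩
      have h4 : (t.perm σ).y.u (σ x) = t.y.u x := by
        show t.y.u (σ.symm (σ x)) = t.y.u x
        rw [Equiv.symm_apply_apply]
      rw [h4] at h3
      exact h3
    · rintro x (hx | hx) hx' p hp hxp
      · exact absurd hx hx'
      · have h3 : σ x = x := F2 x (t.hs.sub p (t.hy.AS hp) hxp) (t'.hy.aX hx)
        show In (y.u x) p.1
        rw [hu2 x hx]
        refine hY.act x hx ?_ (pmP σ p) ⟨p, hp, rfl⟩ ⟨x, hxp, h3⟩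
        rintro ⟨z, hz, h4⟩
        have h5 : z = x := σ.injective (h4.trans h3.symm)
        rw [h5] at hz
        exact hx' hz
    · intro x hx x' hx' hxx ν h3 h4 h5
      change In (y.u x) ν at h3
      change In (y.u x') ν at h4
      rw [hu1 x hx] at h3
      rw [hu1 x' hx'] at h4
      have h6 := hY.tt (σ x) ⟨x, hx, rfl⟩ (σ x') ⟨x', hx', rfl⟩
        (fun h7 => hxx (σ.injective h7)) ν h3 h4 (by
          have h8 : (t.perm σ).y.Δ = t.y.Δ := Fpt.perm_Δ t.y σ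
          rw [h8]
          exact h5)
      obtain ⟨μ, h7, h8⟩ := h6
      have h9 : μ < t'.s.ε := by
        by_contra h10
        exact h8 ⟨fun h11 => absurd (t'.hs.gε _ _ h11) h10,
          fun h11 => absurd (t'.hs.gε _ _ h11) h10⟩
      refine ⟨μ, h7, ?_⟩
      show ¬ (μ ∈ g x ↔ μ ∈ g x')
      rw [hg x (Or.inl (t.hy.aX hx)) μ h9, hg x' (Or.inl (t.hy.aX hx')) μ h9,
        R2 x (t.hy.aX hx), R2 x' (t.hy.aX hx')]
      exact h8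
  · refine ⟨subset_union_right, subset_union_right, ?_, subset_rfl, ?_, ?_⟩
    · intro x hx
      show ULe (y.u x) (t'.y.u x)
      rw [hu2 x hx]
      exact ULe.refl _
    · rintro x (hx | hx) hx' p hp hxp
      · exfalso
        have h3 : σ x = x := F2 x (t.hy.aX hx) (t'.hs.sub p (t'.hy.AS hp) hxp)
        have h4 := F6 x hx
        rw [h3] at h4
        exact hx' h4
      · exact absurd hx hx'
    · intro x hx x' hx' hxx ν h3 h4 h5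
      exfalso
      change In (y.u x) ν at h3
      rw [hu2 x hx] at h3
      exact h5 (Or.inl ⟨x, hx, h3⟩)

/-- PROOF: `reduction` for `N = σ '' t.s.X`, `t' = t.perm σ`. If `x ∈ t.s.X`, `x ∉ N` and
`σ x ∈ t.s.X` then `σ (σ x) = σ x`, so `σ x = x ∈ N`. -/
theorem compat_perm (t : TC I) (σ : Equiv.Perm I)
    (h : ∀ x ∈ t.s.X, x ∈ σ '' t.s.X → σ x = x) : ∃ r, r ≤ t ∧ r ≤ t.perm σ := by
  refine reduction (N := σ '' t.s.X) h ?_ le_rfl subset_rfl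
  intro x hx hx'
  refine ⟨⟨x, hx, rfl⟩, fun h1 => hx' ?_⟩
  have h2 := h (σ x) h1 ⟨x, hx, rfl⟩
  exact ⟨x, hx, σ.injective h2⟩

/-- PROOF: `exists_perm`, `reduction`. -/
theorem exists_red (t : TC I) {N : Set I} (hN : ¬ Small.{0} N) :
    ∃ σ : Equiv.Perm I, (t.perm σ).s.X ⊆ N ∧
      ∀ t' ≤ t.perm σ, t'.s.X ⊆ N → ∃ t'', t'' ≤ t ∧ t'' ≤ t' := by
  obtain ⟨σ, h1, h2⟩ := exists_perm t.s.X N t.hs.smX hN
  refine ⟨σ, ?_, fun t' h3 h4 => reduction h1 h2 h3 h4⟩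
  rintro _ ⟨x, hx, rfl⟩
  by_cases h3 : x ∈ N
  · rw [h1 x hx h3]
    exact h3
  · exact (h2 x hx h3).1

end Pool.Agent.CG3
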