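import Pool.Agent.Lib.MP_99c1f3_lc.CG.T.Cnt
import Pool.Agent.Lib.MP_99c1f3_lc.CG.T.Red

/-!
# CG3, block T, module CC: the chain condition
-/

set_option autoImplicit false

namespace Pool.Agent.CG3

open Set

variable {I : Type 1}

/-- The chain condition.

PROOF: if `I` is small: `R = {t | t ∈ D}` has size `≤ κ` by `szK_T` with `N = univ`. Otherwise let
`N0` be a subset of size `≤ κ` which is not small (`exists_szK_not_small`), choose for every `t` a
`d t ≤ t` in `D`, and apply `exists_closed` to `N0` and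
`F X = ⋃ t ∈ {t | t.s.X ⊆ X}, (d t).s.X` (of size `≤ κ` by `szK_T` and `SzK.biUnion`): `N`.
`R = D ∩ {t | t.s.X ⊆ N}`. For `t` let `σ` be given by `exists_red`; `r = d (t.perm σ)` has
`r.s.X ⊆ N`, `r ≤ t.perm σ`, so it is compatible with `t`. -/
theorem ccT (D : Set (TC I)) (hD : ∀ t, ∃ t' ≤ t, t' ∈ D) :
    ∃ R, R ⊆ D ∧ SzK R ∧ ∀ t, ∃ r ∈ R, ∃ q, q ≤ t ∧ q ≤ r := by
  choose d hd hdD using hD
  by_cases hI : Small.{0} I
  · have hu : Small.{0} (Set.univ : Set I) := by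
      have : Small.{0} I := hI
      infer_instance
    have h1 : SzK {t : TC I | t.s.X ⊆ Set.univ} := szK_T (SzK.of_small hu)
    exact ⟨D, subset_rfl, h1.mono fun t _ => Set.subset_univ _,
      fun t => ⟨d t, hdD t, d t, hd t, le_rfl⟩⟩
  · obtain ⟨N0, hN0, hN0s⟩ := exists_szK_not_small hI
    obtain ⟨N, hN0N, hN, hcl⟩ := exists_closed N0 hN0
      (fun X => ⋃ t ∈ {t : TC I | t.s.X ⊆ X}, (d t).s.X)
      (fun X hX => SzK.biUnion (szK_T (SzK.of_small hX))
        fun t _ => SzK.of_small (d t).hs.smX)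
    have hNs : ¬ Small.{0} N := fun h => hN0s (small_sub h hN0N)
    refine ⟨D ∩ {t | t.s.X ⊆ N}, Set.inter_subset_left,
      (szK_T hN).mono Set.inter_subset_right, fun t => ?_⟩
    obtain ⟨σ, hσ1, hσ2⟩ := exists_red t hNs
    have h1 := hcl (t.perm σ).s.X hσ1 (t.perm σ).hs.smX
    have h2 : (d (t.perm σ)).s.X ⊆ N := by
      refine subset_trans ?_ h1
      intro x hx
      simp only [Set.mem_iUnion]
      exact ⟨t.perm σ, fun _ h => h, hx⟩
    obtain ⟨t'', h3, h4⟩ := hσ2 _ (hd (t.perm σ)) h2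
    exact ⟨d (t.perm σ), ⟨hdD _, h2⟩, t'', h3, h4⟩

end Pool.Agent.CG3
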