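import Pool.Agent.Lib.MP_99c1f3_lc.CG.T.Sz

/-!
# CG3, block T, module SzC: closing off
-/

set_option autoImplicit false

namespace Pool.Agent.CG3

open Set

variable {α : Type 1}

/-- A set of size at most `κ` has at most `κ` small subsets. -/
theorem SzK.smallSubsets {N : Set α} (h : SzK N) : SzK {X : Set α | X ⊆ N ∧ Small.{0} X} := by
  obtain ⟨f, hf⟩ := h
  have h1 : ∀ γ : K0, SzK {X : Set α | X ⊆ {x | x ∈ N ∧ f x < γ}} := by
    intro γ
    refine SzK.of_small (small_powerset (small_iff_bd.2 ⟨γ, f, ?_, ?_⟩))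
    · exact hf.mono fun x hx => hx.1
    · exact fun x hx => hx.2
  refine (SzK.iUnion h1).mono ?_
  rintro X ⟨hX, hs⟩
  have h2 : Small.{0} (f '' X) := small_image f X
  obtain ⟨γ, hγ⟩ := bd_of_small h2
  exact mem_iUnion.2 ⟨γ, fun x hx => ⟨hX hx, hγ _ ⟨x, hx, rfl⟩⟩⟩

/-- The stages of closing off. -/
private noncomputable def szcN (N0 : Set α) (F : Set α → Set α) (i : K0) : Set α :=
  N0 ∪ ⋃ j : Iio i, ⋃ X ∈ {X : Set α | X ⊆ szcN N0 F j.1 ∧ Small.{0} X}, F X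
termination_by i
decreasing_by exact j.2

private theorem szcN_eq (N0 : Set α) (F : Set α → Set α) (i : K0) :
    szcN N0 F i = N0 ∪ ⋃ j : Iio i, ⋃ X ∈ {X : Set α | X ⊆ szcN N0 F j.1 ∧ Small.{0} X}, F X := by
  rw [szcN]

private theorem szcN_sz {N0 : Set α} (h0 : SzK N0) {F : Set α → Set α}
    (hF : ∀ X : Set α, Small.{0} X → SzK (F X)) (i : K0) : SzK (szcN N0 F i) := by
  induction i using WellFoundedLT.induction with
  | ind i ih =>
    rw [szcN_eq]
    refine h0.union ?_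
    have h1 : ∀ j : K0, SzK {x | j < i ∧ x ∈ ⋃ X ∈ {X : Set α | X ⊆ szcN N0 F j ∧ Small.{0} X},
        F X} := by
      intro j
      by_cases hj : j < i
      · exact (SzK.biUnion (ih j hj).smallSubsets fun X hX => hF X hX.2).mono fun x hx => hx.2
      · refine ⟨fun _ => 0, fun x hx => absurd hx.1 hj⟩
    refine (SzK.iUnion h1).mono ?_
    intro x hx
    obtain ⟨j, hj⟩ := mem_iUnion.1 hx
    exact mem_iUnion.2 ⟨j.1, j.2, hj⟩

private theorem szcN_mono {N0 : Set α} {F : Set α → Set α} {i j : K0} (h : i ≤ j) :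
    szcN N0 F i ⊆ szcN N0 F j := by
  rw [szcN_eq N0 F i, szcN_eq N0 F j]
  refine union_subset_union_right _ ?_
  intro x hx
  obtain ⟨k, hk⟩ := mem_iUnion.1 hx
  exact mem_iUnion.2 ⟨⟨k.1, lt_of_lt_of_le k.2 h⟩, hk⟩

/-- Closing off. -/
theorem exists_closed (N0 : Set α) (h0 : SzK N0) (F : Set α → Set α)
    (hF : ∀ X : Set α, Small.{0} X → SzK (F X)) :
    ∃ N : Set α, N0 ⊆ N ∧ SzK N ∧ ∀ X : Set α, X ⊆ N → Small.{0} X → F X ⊆ N := by
  refine ⟨⋃ i, szcN N0 F i, ?_, SzK.iUnion fun i => szcN_sz h0 hF i, fun X hX hs => ?_⟩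
  · intro x hx
    refine mem_iUnion.2 ⟨0, ?_⟩
    rw [szcN_eq]
    exact Or.inl hx
  · choose! k hk using fun x (hx : x ∈ X) => mem_iUnion.1 (hX hx)
    have h2 : Small.{0} (k '' X) := small_image k X
    obtain ⟨γ, hγ⟩ := bd_of_small h2
    intro x hx
    refine mem_iUnion.2 ⟨Order.succ γ, ?_⟩
    rw [szcN_eq]
    refine Or.inr (mem_iUnion.2 ⟨⟨γ, Order.lt_succ γ⟩, ?_⟩)
    refine mem_biUnion (x := X) ⟨fun z hz => ?_, hs⟩ hx
    exact szcN_mono (hγ _ ⟨z, hz, rfl⟩).le (hk z hz)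

/-- If `α` is not small it has a subset of size at most `κ` which is not small. -/
theorem exists_szK_not_small (h : ¬ Small.{0} α) : ∃ N : Set α, SzK N ∧ ¬ Small.{0} N := by
  have h1 : Cardinal.mk K0 ≤ Cardinal.mk α := by
    by_contra h2
    rw [not_le] at h2
    apply h
    rw [show Cardinal.mk K0 = Cardinal.univ.{0, 1} from Cardinal.mk_ordinal.{0}] at h2
    obtain ⟨c, hc⟩ := Cardinal.lt_univ.1 h2
    have h4 : Cardinal.lift.{0} (Cardinal.mk α) = Cardinal.lift.{1} (Cardinal.mk c.out) := by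
      rw [Cardinal.mk_out, ← hc, Cardinal.lift_id'.{0, 1}]
    obtain ⟨e⟩ := Cardinal.lift_mk_eq'.1 h4
    exact ⟨⟨c.out, ⟨e⟩⟩⟩
  obtain ⟨e⟩ := (Cardinal.le_def _ _).1 h1
  refine ⟨range e, ?_, fun hs => ?_⟩
  · have := SzK.image SzK.univ e
    rwa [image_univ] at this
  · refine not_small_ordinal.{0, 0} ?_
    exact small_of_injective (f := fun a : K0 => (⟨e a, a, rfl⟩ : range e)) fun a b hab =>
      e.injective (congrArg Subtype.val hab)

end Pool.Agent.CG3
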