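import Pool.Agent.Lib.MP_99c1f3_lc.CG.T.SmFpt
import Pool.Agent.Lib.MP_99c1f3_lc.CG.T.SzC

/-!
# CG3, block T, module Cnt: counting conditions
-/

set_option autoImplicit false

namespace Pool.Agent.CG3

open Set

variable {I : Type 1}

private theorem cnt_ext {t t' : TC I} (h1 : t.s = t'.s) (h2 : t.y = t'.y) : t = t' := by
  obtain ⟨s, y, a, b⟩ := t
  obtain ⟨s', y', a', b'⟩ := t'
  simp only at h1 h2
  subst h1 h2
  rfl

private theorem cnt_small_skl {K : Set I} (hK : Small.{0} K) (i : K0) :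
    Small.{0} {s : Skl I | IsSkl s ∧ s.X ⊆ K ∧ s.ε < i} := by
  have h0 : Small.{0} (Iio i) := inferInstance
  have h1 : Small.{0} {X : Set I | X ⊆ K} := small_powerset hK
  have h2 : Small.{0} {Y : Set K0 | Y ⊆ Iio i} := small_powerset h0
  have h3 : Small.{0} (Iic i) := inferInstance
  have h4 : Small.{0} {S : Set (K0 × Set I) | S ⊆ Iic i ×ˢ {X : Set I | X ⊆ K}} :=
    small_powerset (small_setProd (Iic i) {X : Set I | X ⊆ K})
  have := hK
  refine small_of_injective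
    (β := Iio i × {X : Set I | X ⊆ K} × (K → {Y : Set K0 | Y ⊆ Iio i}) ×
      {S : Set (K0 × Set I) | S ⊆ Iic i ×ˢ {X : Set I | X ⊆ K}})
    (f := fun s => (⟨s.1.ε, s.2.2.2⟩, ⟨s.1.X, s.2.2.1⟩,
      fun x => ⟨s.1.g x, fun ν hν => (s.2.1.gε x ν hν).trans s.2.2.2⟩,
      ⟨s.1.S, fun p hp => ⟨(s.2.1.le p hp).trans s.2.2.2.le,
        (s.2.1.sub p hp).trans s.2.2.1⟩⟩)) ?_
  rintro ⟨⟨ε, X, g, S⟩, hs, hX, hε⟩ ⟨⟨ε', X', g', S'⟩, hs', hX', hε'⟩ h
  simp only [Prod.mk.injEq, Subtype.mk.injEq] at h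
  obtain ⟨e1, e2, e3, e4⟩ := h
  have e1' : ε = ε' := by first | exact e1 | exact congrArg Subtype.val e1
  have e2' : X = X' := by
    first
      | exact e2
      | exact congrArg (fun z => (z : Set I)) e2
  have e4' : S = S' := by first | exact e4 | exact congrArg Subtype.val e4
  subst e1' e2' e4'
  have e5 : g = g' := by
    funext x
    by_cases hx : x ∈ K
    · have := congrFun e3 ⟨x, hx⟩
      exact congrArg Subtype.val this
    · have h5 : x ∉ X := fun h => hx (hX h)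
      have h6 := hs.gX x h5
      have h7 := hs'.gX x h5
      simp only at h6 h7
      rw [h6, h7]
  subst e5
  rfl

/-- PROOF: `t.s` is determined by `ε < i`, `X ⊆ K`, the restriction of `g` to `K` with values in the
subsets of `Iio i` (`gε`, `gX`), `S ⊆ Iic ε ×ˢ 𝒫 K` (`le`, `sub`): small many (`IsSkl` skeletons).
For every skeleton there are small many `y` (`small_fpt` with `γ = i`); `small_bUnion`. -/
theorem small_bd {K : Set I} (hK : Small.{0} K) (i : K0) :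
    Small.{0} {t : TC I | t.s.X ⊆ K ∧ t.Bd i} := by
  have hsk := cnt_small_skl hK i
  have hF : ∀ s ∈ {s : Skl I | IsSkl s ∧ s.X ⊆ K ∧ s.ε < i},
      Small.{0} {t : TC I | t.s = s ∧ t.y.Bd i} := by
    rintro s ⟨hs, _, _⟩
    have := small_fpt hs i
    refine small_of_injective
      (β := {y : Fpt I | Over s y ∧ y.Bd i})
      (f := fun t => ⟨t.1.y, by
        obtain ⟨t, h1, h2⟩ := t
        exact ⟨h1 ▸ t.hy, h2⟩⟩) ?_
    rintro ⟨t, ht1, ht2⟩ ⟨t', ht1', ht2'⟩ h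
    have h' : t.y = t'.y := congrArg Subtype.val h
    refine Subtype.ext (cnt_ext (ht1.trans ht1'.symm) h')
  refine small_sub (small_bUnion hsk (fun s => {t : TC I | t.s = s ∧ t.y.Bd i}) hF) ?_
  rintro t ⟨h1, h2⟩
  refine mem_biUnion (x := t.s) ⟨t.hs, h1, h2.ε⟩ ⟨rfl, ?_, h2.u, h2.v⟩
  intro p hp
  exact (t.hs.le p (t.hy.AS hp)).trans_lt h2.ε

private theorem cnt_exists_bd (t : TC I) : ∃ i : K0, t.Bd i := by
  have hf : ((⋃ x ∈ t.y.a, Prod.snd '' t.y.u x) ∪ Prod.fst '' t.y.v ∪ {t.s.ε}).Finite :=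
    ((t.hy.afin.biUnion fun x hx => (t.hy.u x hx).fin.image _).union
      (t.hy.v.fin.image _)).union (finite_singleton _)
  obtain ⟨b, hb⟩ := hf.bddAbove
  refine ⟨Order.succ b, ?_, ?_, ?_⟩
  · exact Order.lt_succ_of_le (hb (Or.inr rfl))
  · intro x hx p hp
    exact Order.lt_succ_of_le (hb (Or.inl (Or.inl (mem_biUnion hx ⟨p, hp, rfl⟩))))
  · intro p hp
    exact Order.lt_succ_of_le (hb (Or.inl (Or.inr ⟨p, hp, rfl⟩)))

/-- PROOF: the union over the small `K ⊆ N` (`SzK.smallSubsets`) and `i : K0` of the sets of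
`small_bd` (every `t` has `t.Bd i` for some `i`: `ε` and finitely many ordinals). -/
theorem szK_T {N : Set I} (hN : SzK N) : SzK {t : TC I | t.s.X ⊆ N} := by
  have h1 : SzK (⋃ X ∈ {X : Set I | X ⊆ N ∧ Small.{0} X},
      ⋃ i : K0, {t : TC I | t.s.X ⊆ X ∧ t.Bd i}) :=
    hN.smallSubsets.biUnion fun X hX => SzK.iUnion fun i => SzK.of_small (small_bd hX.2 i)
  refine h1.mono ?_
  intro t ht
  obtain ⟨i, hi⟩ := cnt_exists_bd t
  exact mem_biUnion (x := t.s.X) ⟨ht, t.hs.smX⟩ (mem_iUnion.2 ⟨i, subset_rfl, hi⟩)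

end Pool.Agent.CG3
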