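import Pool.Agent.Lib.MP_99c1f3_lc.CG.T.SmFpt

/-!
# CG3, block T, module LemA1: one step
-/

set_option autoImplicit false

namespace Pool.Agent.CG3

open Set

variable {I : Type 1}

/-- One step of the construction.

PROOF: `meet_small` for the preorder `SC I` (`cloK_SC`), the small index type
`{y | Over s y ∧ y.Bd γ} × ℕ` (`small_fpt`), started at `s`, but only the skeletons below `s`
matter: for `(y, n)` let `D' (y, n)` be the set of all `q : SC I` such that if `SLe q.1 s` then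
there is `z` with `YLe q.1 z y ∧ InD (D n) q.1 z`. Dense: let `q` be given. If `¬ SLe q.1 s` then
`q` itself is in `D'`. Otherwise `Over q.1 y` (`Over.mono`), by `hD` there is `t' ≤ ⟨q, y⟩` in
`D n`; take `q' = t'.s`, `z = t'.y`. Open: if `q'` is below `q ∈ D'` and `SLe q.1 s` then `z` works
for `q'` (`Over.mono`, `YLe.skl`, and `⟨q', z⟩ ≤ ⟨q, z⟩`, `hO`); if `¬ SLe q.1 s` and `SLe q'.1 s`
there is a problem, so use instead the preorder `{q : SC I // SLe q.1 s}` (it inherits `CloK` from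
`SC I`: a lower bound of a sequence of length `> 0` below `s`, and `s` itself for length `0`), or
`D' (y, n)` for the preorder of the skeletons below `s`. -/
theorem stepA (D : ℕ → Set (TC I)) (hD : ∀ n t, ∃ t' ≤ t, t' ∈ D n)
    (hO : ∀ n t t', t ∈ D n → t' ≤ t → t' ∈ D n) {s : Skl I} (hs : IsSkl s) (γ : K0) :
    ∃ r, IsSkl r ∧ SLe r s ∧
      ∀ y, Over s y → y.Bd γ → ∀ n, ∃ z, YLe r z y ∧ InD (D n) r z := by
  have hsm := small_fpt hs γ
  have hQ : CloK {q : SC I // SLe q.1 s} := by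
    intro o c hc
    by_cases ho : o = 0
    · refine ⟨⟨⟨s, hs⟩, SLe.refl s⟩, fun i hi => ?_⟩
      rw [ho] at hi
      exact absurd hi (not_lt.2 zero_le)
    · obtain ⟨q, hq⟩ := cloK_SC (I := I) o (fun i => (c i).1) fun i j hij hj => hc i j hij hj
      have h0 : 0 < o := lt_of_le_of_ne zero_le (Ne.symm ho)
      have h1 : SLe q.1 (c 0).1.1 := hq 0 h0
      exact ⟨⟨q, h1.trans (c 0).2⟩, fun i hi => hq i hi⟩
  have hM := meet_small hQ (ι := {y : Fpt I | Over s y ∧ y.Bd γ} × ℕ)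
    (fun i => {q | ∃ z, YLe q.1.1 z i.1.1 ∧ InD (D i.2) q.1.1 z})
  obtain ⟨q, _, hq⟩ := hM (by
    rintro ⟨⟨y, h1, h2⟩, n⟩ q
    obtain ⟨t', ht', h3⟩ := hD n ⟨q.1.1, y, q.1.2, Over.mono hs h1 q.2⟩
    exact ⟨⟨⟨t'.s, t'.hs⟩, ht'.1.trans q.2⟩, ht'.1, t'.y, ht'.2, t'.hs, t'.hy, h3⟩) (by
    rintro ⟨⟨y, h1, h2⟩, n⟩ q q' ⟨z, h3, h4, h5, h6⟩ hle
    have hle' : SLe q'.1.1 q.1.1 := hle
    exact ⟨z, YLe.skl q.1.2 (Over.mono hs h1 q.2) h3 hle', q'.1.2, Over.mono q.1.2 h5 hle',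
      hO n _ _ h6 ⟨hle', YLe.refl _ _⟩⟩) ⟨⟨s, hs⟩, SLe.refl s⟩
  exact ⟨q.1.1, q.1.2, q.2, fun y h1 h2 n => hq (⟨y, h1, h2⟩, n)⟩

/-- The height can be increased such that the Cohen parts become different and all side conditions
are below the height.

PROOF: by `small_iff_bd` there is `f` injective on `s.X` with `f x < γ0`. Let
`ε' > max s.ε γ + γ0 + 1` and `G x = s.g x ∪ {s.ε + f x}` for `x ∈ s.X`, `∅` otherwise,
`r = ⟨ε', s.X, G, s.S⟩`. -/
theorem exists_rdy {s : Skl I} (hs : IsSkl s) (γ : K0) :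
    ∃ r, Rdy r ∧ SLe r s ∧ γ < r.ε ∧ s.ε < r.ε ∧ r.X = s.X ∧ r.S = s.S := by
  obtain ⟨γ0, f, hf, hf'⟩ := small_iff_bd.1 hs.smX
  obtain ⟨ε', hε'⟩ : ∃ ε' : K0, ε' = Order.succ (max s.ε γ + γ0) := ⟨_, rfl⟩
  obtain ⟨G, hGd⟩ : ∃ G : I → Set K0, G = fun x => {ν | ν ∈ s.g x ∨ (x ∈ s.X ∧ ν = s.ε + f x)} :=
    ⟨_, rfl⟩
  have hmem : ∀ x ν, ν ∈ G x ↔ ν ∈ s.g x ∨ (x ∈ s.X ∧ ν = s.ε + f x) := by
    intro x ν
    rw [hGd]
    rfl
  have h1 : s.ε < ε' := by
    rw [hε']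
    exact ((le_max_left _ _).trans le_self_add).trans_lt (Order.lt_succ _)
  have h2 : γ < ε' := by
    rw [hε']
    exact ((le_max_right _ _).trans le_self_add).trans_lt (Order.lt_succ _)
  have h3 : ∀ x ∈ s.X, s.ε + f x < ε' := by
    intro x hx
    have h4 : s.ε + f x < s.ε + γ0 := (add_lt_add_iff_left s.ε).2 (hf' x hx)
    have h5 : s.ε + γ0 ≤ max s.ε γ + γ0 := by gcongr; exact le_max_left _ _
    rw [hε']
    exact (h4.trans_le h5).trans (Order.lt_succ _)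
  have hG : ∀ x, ∀ ν < s.ε, (ν ∈ G x ↔ ν ∈ s.g x) := by
    intro x ν hν
    rw [hmem]
    refine ⟨fun h => ?_, Or.inl⟩
    rcases h with h | ⟨_, h⟩
    · exact h
    · exact absurd hν (not_lt.2 (h ▸ le_self_add))
  have hr : IsSkl ⟨ε', s.X, G, s.S⟩ :=
    { smX := hs.smX
      smS := hs.smS
      gε := by
        intro x ν hν
        rcases (hmem x ν).1 hν with h | ⟨h, h'⟩
        · exact (hs.gε x ν h).trans h1
        · exact h' ▸ h3 x h
      gX := by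
        intro x hx
        refine Set.eq_empty_iff_forall_notMem.2 fun ν hν => ?_
        rcases (hmem x ν).1 hν with h | ⟨h, _⟩
        · rw [hs.gX x hx] at h
          exact h
        · exact hx h
      le := fun p hp => (hs.le p hp).trans h1.le
      sub := hs.sub
      dist := by
        intro p hp x hx z hz hxz
        obtain ⟨ν, h4, h5⟩ := hs.dist p hp x hx z hz hxz
        have h6 : ν < s.ε := h4.trans_le (hs.le p hp)
        exact ⟨ν, h4, fun h7 => h5 (((hG x ν h6).symm.trans h7).trans (hG z ν h6))⟩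
      cov := hs.cov }
  refine ⟨⟨ε', s.X, G, s.S⟩, ⟨hr, zero_le.trans_lt h1, fun p hp => (hs.le p hp).trans_lt h1,
    ?_⟩, ⟨h1.le, subset_rfl, fun x _ => hG x, subset_rfl, fun _ _ p hp _ _ => hp⟩, h2, h1, rfl,
    rfl⟩
  intro x hx z hz hxz
  refine ⟨s.ε + f x, h3 x hx, fun h => ?_⟩
  rcases (hmem z _).1 (h.1 ((hmem x _).2 (Or.inr ⟨hx, rfl⟩))) with h4 | ⟨_, h4⟩
  · exact absurd (hs.gε z _ h4) (not_lt.2 le_self_add)
  · exact hxz (hf hx hz (add_left_cancel h4))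

end Pool.Agent.CG3
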