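import Pool.Agent.Lib.MP_99c1f3_lc.CG.T.LemA
import Pool.Agent.Lib.MP_99c1f3_lc.CG.T.LemA1

/-!
# CG3, block T, module Proj: the projections are projections, density
-/

set_option autoImplicit false

namespace Pool.Agent.CG3

open Set

variable {I : Type 1}

/-- The skeleton can be extended to any height and any small set of coordinates, with different
Cohen parts.

PROOF: `X = t.s.X ∪ Y`; then as in `exists_rdy` (`g x = t.s.g x ∪ {t.s.ε + f x}` for `x ∈ X`); the
finite part is the same (`Over.mono`). -/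
theorem ext_skl (t : TC I) {Y : Set I} (hY : Small.{0} Y) (γ : K0) : ∃ t' ≤ t, t'.y = t.y ∧
    Y ⊆ t'.s.X ∧ γ ≤ t'.s.ε ∧ ∀ x ∈ t'.s.X, ∀ z ∈ t'.s.X, x ≠ z → Df t'.s.g x z t'.s.ε := by
  have hX := t.hs.smX
  have h1 : IsSkl ⟨t.s.ε, t.s.X ∪ Y, t.s.g, t.s.S⟩ :=
    { smX := small_union _ _
      smS := t.hs.smS
      gε := t.hs.gε
      gX := fun x hx => t.hs.gX x fun h => hx (Or.inl h)
      le := t.hs.le
      sub := fun p hp => (t.hs.sub p hp).trans subset_union_left
      dist := t.hs.dist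
      cov := t.hs.cov }
  have h2 : SLe ⟨t.s.ε, t.s.X ∪ Y, t.s.g, t.s.S⟩ t.s :=
    ⟨le_rfl, subset_union_left, fun _ _ _ _ => Iff.rfl, subset_rfl, fun _ _ _ h _ _ => h⟩
  obtain ⟨r, hr, hrs, hγ, _, hX', _⟩ := exists_rdy h1 γ
  refine ⟨⟨r, t.y, hr.skl, Over.mono t.hs t.hy (hrs.trans h2)⟩, ⟨hrs.trans h2, YLe.refl _ _⟩, rfl,
    ?_, hγ.le, hr.inj⟩
  show Y ⊆ r.X
  rw [hX']
  exact subset_union_right

/-- The projection property.

PROOF: by `ext_skl` we may assume `x ∈ t.s.X` and that all Cohen parts are different (the finite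
part and so `pr x t` are not changed). Let `a' = insert x t.y.a`; `u' x` = `w` with all undecided
elements of `Δ t.y` made `Out` (`decFin`); for `z ∈ t.y.a`, `z ≠ x`: `u' z` = `t.y.u z` with all
undecided elements of `F = {ν | In w ν}` (finite) made `Out`. `Δ` of the new finite part is
contained in `t.y.Δ ∪ F` and is decided everywhere. Order: `u` for `x` if `x ∈ t.y.a`, and `act` for `x`
otherwise, by `w ≤ pr x t` (`pr_of_mem`, `Fpt.pu_of_not_mem`, `in_uOf`, `In.mono`). `tt`: a new `In`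
point occurs only at `x`, so for `z ≠ z'` in `t.y.a` with `In` at both, one of them, say `z`, is not
`x` and `In (t.y.u z) ν`, so `ν ∈ t.y.Δ`. -/
theorem proj {x : I} {t : TC I} {w : UC} (h : w ≤ pr x t) : ∃ t' ≤ t, pr x t' ≤ w ∧ x ∈ t'.y.a := by
  classical
  obtain ⟨t1, h1, h2, h3, _, h4⟩ := ext_skl t (Y := {x}) inferInstance 0
  have hx : x ∈ t1.s.X := h3 rfl
  have hw : ULe w.1 (t1.y.pu x) := by
    rw [h2]
    exact h
  obtain ⟨wx, a1, a2, a3, a4⟩ := decFin w.2 t1.hy.Δ_finite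
  have hex : ∀ z, ∃ v : Set (K0 × K0), (z ∈ t1.y.a → IsU v ∧ ULe v (t1.y.u z) ∧
      (∀ ν ∈ {ν | In w.1 ν}, Dec v ν) ∧ ∀ ξ, In v ξ → In (t1.y.u z) ξ) := by
    intro z
    by_cases hz : z ∈ t1.y.a
    · obtain ⟨v, hv⟩ := decFin (t1.hy.u z hz) w.2.in_finite
      exact ⟨v, fun _ => hv⟩
    · exact ⟨∅, fun hz' => absurd hz' hz⟩
  choose V hV using hex
  obtain ⟨U, hU⟩ : ∃ U : I → Set (K0 × K0), U = fun z =>
      if z = x then wx else if z ∈ t1.y.a then V z else ∅ := ⟨_, rfl⟩
  have hUx : U x = wx := by rw [hU]; exact if_pos rfl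
  have hUz : ∀ z ∈ t1.y.a, z ≠ x → U z = V z := by
    intro z hz hzx
    rw [hU]
    simp only [if_neg hzx, if_pos hz]
  have hUn : ∀ z, z ∉ insert x t1.y.a → U z = ∅ := by
    intro z hz
    have hzx : z ≠ x := fun h => hz (Or.inl h)
    have hza : z ∉ t1.y.a := fun h => hz (Or.inr h)
    rw [hU]
    simp only [if_neg hzx, if_neg hza]
  have hin : ∀ z ∈ t1.y.a, z ≠ x → ∀ ν, In (U z) ν → In (t1.y.u z) ν := by
    intro z hz hzx ν hν
    rw [hUz z hz hzx] at hν
    exact (hV z hz).2.2.2 ν hν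
  have hΔ : ∀ ν, ((∃ z ∈ insert x t1.y.a, In (U z) ν) ∨ ∃ K, (ν, K) ∈ t1.y.A) →
      ν ∈ t1.y.Δ ∨ In w.1 ν := by
    rintro ν (⟨z, hz, h5⟩ | h5)
    · by_cases hzx : z = x
      · rw [hzx, hUx] at h5
        exact Or.inr (a4 ν h5)
      · have hza : z ∈ t1.y.a := hz.resolve_left hzx
        exact Or.inl (Or.inl ⟨z, hza, hin z hza hzx ν h5⟩)
    · exact Or.inl (Or.inr h5)
  have hover : Over t1.s ⟨t1.y.A, insert x t1.y.a, U, t1.y.v⟩ :=
    { Afin := t1.hy.Afin
      AS := t1.hy.AS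
      afin := t1.hy.afin.insert x
      aX := insert_subset hx t1.hy.aX
      dis := fun z hz z' hz' hzz =>
        h4 z (insert_subset hx t1.hy.aX hz) z' (insert_subset hx t1.hy.aX hz') hzz
      u := fun z hz => by
        show IsU (U z)
        by_cases hzx : z = x
        · rw [hzx, hUx]
          exact a1
        · have hza : z ∈ t1.y.a := hz.resolve_left hzx
          rw [hUz z hza hzx]
          exact (hV z hza).1
      u0 := hUn
      dec := fun z hz ν hν => by
        show Dec (U z) ν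
        by_cases hzx : z = x
        · rw [hzx, hUx]
          rcases hΔ ν hν with h5 | h5
          · exact a3 ν h5
          · exact Or.inl (h5.mono a2)
        · have hza : z ∈ t1.y.a := hz.resolve_left hzx
          rw [hUz z hza hzx]
          rcases hΔ ν hν with h5 | h5
          · exact (t1.hy.dec z hza ν h5).mono (hV z hza).2.1
          · exact (hV z hza).2.2.1 ν h5
      v := t1.hy.v }
  have hle : YLe t1.s ⟨t1.y.A, insert x t1.y.a, U, t1.y.v⟩ t1.y :=
    { A := subset_rfl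
      a := subset_insert _ _
      u := fun z hz => by
        show ULe (U z) (t1.y.u z)
        by_cases hzx : z = x
        · rw [hzx, hUx]
          rw [hzx] at hz
          rw [Fpt.pu_of_mem hz] at hw
          exact a2.trans hw
        · rw [hUz z hz hzx]
          exact (hV z hz).2.1
      v := subset_rfl
      act := fun z hz hza p hp hzp => by
        show In (U z) p.1
        have hzx : z = x := hz.resolve_right hza
        rw [hzx] at hza hzp ⊢
        rw [hUx]
        rw [Fpt.pu_of_not_mem hza] at hw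
        exact In.mono ((in_uOf (F := t1.y.act x)).2 (Or.inr ⟨p.2, hp, hzp⟩)) (a2.trans hw)
      tt := fun z hz z' hz' hzz ν h5 h6 h7 => by
        by_cases hzx : z = x
        · have hzx' : z' ≠ x := fun h => hzz (hzx.trans h.symm)
          exact (h7 (Or.inl ⟨z', hz', hin z' hz' hzx' ν h6⟩)).elim
        · exact (h7 (Or.inl ⟨z, hz, hin z hz hzx ν h5⟩)).elim }
  refine ⟨⟨t1.s, ⟨t1.y.A, insert x t1.y.a, U, t1.y.v⟩, t1.hs, hover⟩, ?_, ?_, Or.inl rfl⟩
  · have h5 : (⟨t1.s, ⟨t1.y.A, insert x t1.y.a, U, t1.y.v⟩, t1.hs, hover⟩ : TC I) ≤ t1 :=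
      ⟨SLe.refl _, hle⟩
    exact h5.trans h1
  · rw [UC.le_def, pr_of_mem (by exact Or.inl rfl)]
    show ULe (U x) w.1
    rw [hUx]
    exact a2

/-- PROOF: `proj` for `w = pr x t`. -/
theorem dens_a (x : I) (t : TC I) : ∃ t' ≤ t, x ∈ t'.y.a := by
  obtain ⟨t', h1, _, h2⟩ := proj (le_refl (pr x t))
  exact ⟨t', h1, h2⟩

/-- PROOF: `proj` and `decFin` for `F = {ν}`. -/
theorem dens_dec (x : I) (ν : K0) (t : TC I) : ∃ t' ≤ t, Dec (pr x t').1 ν := by
  obtain ⟨w, h1, h2, h3, _⟩ := decFin (pr x t).2 (finite_singleton ν)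
  obtain ⟨t', h4, h5, _⟩ := proj (w := (⟨w, h1⟩ : UC)) (t := t) (x := x) h2
  exact ⟨t', h4, (h3 ν rfl).mono h5⟩

/-- PROOF: by `dens_a` twice, then a fact about `YLe.tt`. -/
theorem dens_two (x z : I) (t : TC I) : ∃ t' ≤ t, x ∈ t'.y.a ∧ z ∈ t'.y.a := by
  obtain ⟨t1, h1, h2⟩ := dens_a x t
  obtain ⟨t2, h3, h4⟩ := dens_a z t1
  exact ⟨t2, h3.trans h1, h3.2.a h2, h4⟩

theorem finite_Δ (t : TC I) : t.y.Δ.Finite := t.hy.Δ_finite

/-- PROOF: `pr_of_mem` and `YLe.tt`. -/
theorem df_of_in {t t' : TC I} (h : t' ≤ t) {x z : I} (hx : x ∈ t.y.a) (hz : z ∈ t.y.a)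
    (hxz : x ≠ z) {ν : K0} (h1 : In (pr x t').1 ν) (h2 : In (pr z t').1 ν) (h3 : ν ∉ t.y.Δ) :
    Df t'.s.g x z ν := by
  rw [pr_of_mem (h.2.a hx)] at h1
  rw [pr_of_mem (h.2.a hz)] at h2
  exact h.2.tt x hx z hz hxz ν h1 h2 h3

/-- A triple can be added to the collapse if there is no value. -/
private theorem proj_add {α β : K0} (h : β < α) {n : ℕ} {t : TC I}
    (hn : ∀ γ, (α, n, γ) ∉ t.y.v) : ∃ t' ≤ t, (α, n, β) ∈ t'.y.v := by
  have hover : Over t.s ⟨t.y.A, t.y.a, t.y.u, insert (α, n, β) t.y.v⟩ :=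
    { Afin := t.hy.Afin
      AS := t.hy.AS
      afin := t.hy.afin
      aX := t.hy.aX
      dis := t.hy.dis
      u := t.hy.u
      u0 := t.hy.u0
      dec := t.hy.dec
      v :=
        { fin := t.hy.v.fin.insert _
          lt := by
            rintro p (rfl | hp)
            · exact h
            · exact t.hy.v.lt p hp
          uni := by
            rintro p (rfl | hp) q (rfl | hq) h1 h2
            · rfl
            · obtain ⟨q1, q2, q3⟩ := q
              simp only at h1 h2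
              rw [← h1, ← h2] at hq
              exact absurd hq (hn q3)
            · obtain ⟨p1, p2, p3⟩ := p
              simp only at h1 h2
              rw [h1, h2] at hp
              exact absurd hp (hn p3)
            · exact t.hy.v.uni p hp q hq h1 h2 } }
  refine ⟨⟨t.s, ⟨t.y.A, t.y.a, t.y.u, insert (α, n, β) t.y.v⟩, t.hs, hover⟩, ⟨SLe.refl _, ?_⟩,
    Or.inl rfl⟩
  exact
    { A := subset_rfl
      a := subset_rfl
      u := fun _ _ => ULe.refl _
      v := subset_insert _ _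
      act := fun _ hz hza => absurd hz hza
      tt := fun z hz _ _ _ _ h5 _ h7 => absurd (Or.inl ⟨z, hz, h5⟩) h7 }

/-- Totality of the collapse. PROOF: if `(α, n)` has no value add `(α, n, 0)`. -/
theorem dens_v {α : K0} (hα : 0 < α) (n : ℕ) (t : TC I) : ∃ t' ≤ t, ∃ β, (α, n, β) ∈ t'.y.v := by
  by_cases h : ∃ β, (α, n, β) ∈ t.y.v
  · exact ⟨t, le_rfl, h⟩
  · obtain ⟨t', h1, h2⟩ := proj_add hα (n := n) (t := t) fun γ hγ => h ⟨γ, hγ⟩
    exact ⟨t', h1, 0, h2⟩

/-- Surjectivity of the collapse. PROOF: `t.y.v` is finite, take a fresh `n`. -/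
theorem onto_v {α β : K0} (h : β < α) (t : TC I) : ∃ t' ≤ t, ∃ n, (α, n, β) ∈ t'.y.v := by
  have hfin : ((fun p : K0 × ℕ × K0 => p.2.1) '' t.y.v).Finite := t.hy.v.fin.image _
  obtain ⟨n, hn⟩ := hfin.exists_notMem
  obtain ⟨t', h1, h2⟩ := proj_add h (n := n) (t := t) fun γ hγ => hn ⟨_, hγ, rfl⟩
  exact ⟨t', h1, n, h2⟩

/-- The trivial condition. -/
theorem nonempty_TC : Nonempty (TC I) := by
  refine ⟨⟨⟨0, ∅, fun _ => ∅, ∅⟩, ⟨∅, ∅, fun _ => ∅, ∅⟩, ?_, ?_⟩⟩
  · exact
      { smX := inferInstance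
        smS := inferInstance
        gε := fun _ _ h => absurd h (notMem_empty _)
        gX := fun _ _ => rfl
        le := fun _ h => absurd h (notMem_empty _)
        sub := fun _ h => absurd h (notMem_empty _)
        dist := fun _ h => absurd h (notMem_empty _)
        cov := fun _ h => absurd h (notMem_empty _) }
  · exact
      { Afin := finite_empty
        AS := subset_rfl
        afin := finite_empty
        aX := subset_rfl
        dis := fun _ h => absurd h (notMem_empty _)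
        u := fun _ h => absurd h (notMem_empty _)
        u0 := fun _ _ => rfl
        dec := fun _ h => absurd h (notMem_empty _)
        v :=
          { fin := finite_empty
            lt := fun _ h => absurd h (notMem_empty _)
            uni := fun _ h => absurd h (notMem_empty _) } }

end Pool.Agent.CG3
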