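import Pool.Agent.Lib.MP_99c1f3_lc.CG.T.LemA

/-!
# CG3, block T, module LemA3: the situation of the amalgam
-/

set_option autoImplicit false

namespace Pool.Agent.CG3

open Set

variable {I : Type 1}

/-- Below the top condition we are in the situation `ASit` of the amalgam, after closing the active
side conditions under traces.

PROOF: `(s.ε, s.X) ∈ t.y.A ⊆ p.y.A ⊆ p.s.S`. For `q ∈ p.y.A` with `q.1 < s.ε` let `K q` be given by
`cov` for `q` and `(s.ε, s.X)`: `(q.1, K q) ∈ p.s.S`, `q.2 ∩ s.X ⊆ K q ⊆ s.X`. Let `p'` be `p` with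
`A' = p.y.A ∪ {(q.1, K q) | q ∈ p.y.A, q.1 < s.ε}`. `Δ` is not changed since `q.1` is in `Δ`
already, so `dec` holds. `p' ≤ p`: same skeleton, same `a`, `u`, `v`; `act`: no new coordinates, `tt`
as in `YLe.refl`. `ASit`: `hs`, `ε`, `Slt`, `inj` from `Rdy`; `le`: `SLe p.s t.s` and
`SLe t.s s` (`isSkl_top`); `frz`: `SLe.frz` of `p.s` over `topS`, applied to the pair `(s.ε, s.X)`,
gives `q ∈ insert (s.ε, s.X) s.S`, and `q.1 < s.ε` excludes the first; `mem`: for `x ∈ t.y.a` by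
`YLe.u` (`In` of `(s.ε, s.ε)`), otherwise by `act`; `cl`: for a new pair take itself. -/
theorem exists_aSit {s : Skl I} (h : Rdy s) {y0 : Fpt I} (h0 : Over s y0) {t : TC I}
    (ht : t.s = topS s s.ε s.X s.g) (hty : t.y = topY y0 s.ε s.X) {p : TC I} (hp : p ≤ t) :
    ∃ p' ≤ p, ASit s s.ε p' := by
  classical
  have htS : (s.ε, s.X) ∈ t.s.S := by rw [ht]; exact mem_insert _ _
  have htA : (s.ε, s.X) ∈ t.y.A := by rw [hty]; exact mem_insert _ _
  have hpA : (s.ε, s.X) ∈ p.y.A := hp.2.A htA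
  have hpS : (s.ε, s.X) ∈ p.s.S := p.hy.AS hpA
  have hcov : ∀ q : K0 × Set I, ∃ K, q ∈ p.y.A → q.1 < s.ε →
      (q.1, K) ∈ p.s.S ∧ q.2 ∩ s.X ⊆ K ∧ K ⊆ s.X := by
    intro q
    by_cases hq : q ∈ p.y.A ∧ q.1 < s.ε
    · obtain ⟨K, hK⟩ := p.hs.cov q (p.hy.AS hq.1) (s.ε, s.X) hpS hq.2
      exact ⟨K, fun _ _ => hK⟩
    · exact ⟨∅, fun h1 h2 => absurd ⟨h1, h2⟩ hq⟩
  choose K hK using hcov
  let A' : Set (K0 × Set I) := p.y.A ∪ (fun q => (q.1, K q)) '' {q | q ∈ p.y.A ∧ q.1 < s.ε}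
  let y' : Fpt I := ⟨A', p.y.a, p.y.u, p.y.v⟩
  have hΔ : ∀ ν ∈ y'.Δ, ν ∈ p.y.Δ := by
    rintro ν (⟨x, hx, h1⟩ | ⟨K', h1 | ⟨q, hq, h1⟩⟩)
    · exact Or.inl ⟨x, hx, h1⟩
    · exact Or.inr ⟨K', h1⟩
    · have h2 : q.1 = ν := congrArg Prod.fst h1
      exact Or.inr ⟨q.2, h2 ▸ hq.1⟩
  have hover : Over p.s y' :=
    { Afin := p.hy.Afin.union ((p.hy.Afin.subset fun q hq => hq.1).image _)
      AS := by
        rintro q (hq | ⟨q', hq', rfl⟩)
        · exact p.hy.AS hq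
        · exact (hK q' hq'.1 hq'.2).1
      afin := p.hy.afin
      aX := p.hy.aX
      dis := p.hy.dis
      u := p.hy.u
      u0 := p.hy.u0
      dec := fun x hx ν hν => p.hy.dec x hx ν (hΔ ν hν)
      v := p.hy.v }
  have hle : YLe p.s y' p.y :=
    { A := subset_union_left
      a := subset_rfl
      u := fun _ _ => ULe.refl _
      v := subset_rfl
      act := fun x hx h => absurd hx h
      tt := fun x hx _ _ _ ν h1 _ h3 => absurd (Or.inl ⟨x, hx, h1⟩) h3 }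
  have hts := isSkl_top h.skl h.topH
  rw [← ht] at hts
  have hps : SLe p.s s := hp.1.trans hts.2
  refine ⟨⟨p.s, y', p.hs, hover⟩, ⟨SLe.refl _, hle⟩, ?_⟩
  exact
    { hs := h.skl
      ε := rfl
      Slt := h.lt
      inj := h.inj
      le := hps
      top := Or.inl hpA
      frz := fun q hq h1 h2 => by
        have h3 := hp.1.frz _ htS q hq h1 h2
        rw [ht] at h3
        rcases h3 with h4 | h4
        · rw [h4] at h1
          exact absurd h1 (lt_irrefl _)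
        · exact h4
      mem := fun x hx hxX => by
        by_cases hxt : x ∈ t.y.a
        · refine In.mono ?_ (hp.2.u x hxt)
          rw [hty] at hxt ⊢
          exact ⟨(s.ε, s.ε), Or.inr ⟨hxt, rfl⟩, rfl⟩
        · exact hp.2.act x hx hxt (s.ε, s.X) htA hxX
      cl := fun q hq h1 => by
        rcases hq with hq | ⟨q', hq', rfl⟩
        · exact ⟨K q, Or.inr ⟨q, ⟨hq, h1⟩, rfl⟩, (hK q hq h1).2⟩
        · exact ⟨K q', Or.inr ⟨q', hq', rfl⟩, inter_subset_left, (hK q' hq'.1 hq'.2).2.2⟩ }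

end Pool.Agent.CG3
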