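import Pool.Agent.Lib.MP_99c1f3_lc.CG.T.LemA2
import Pool.Agent.Lib.MP_99c1f3_lc.CG.T.LemA3

/-!
# CG3, block T, module PropA: Lemma A
-/

set_option autoImplicit false

namespace Pool.Agent.CG3

open Set

variable {I : Type 1}

/-- The set of conditions over `s` with ordinals `< s.ε` is small. -/
private theorem small_R {s : Skl I} (hs : IsSkl s) :
    Small.{0} {t : TC I | t.s = s ∧ t.y.Bd s.ε} := by
  have h1 := small_fpt hs s.ε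
  refine small_of_injective (β := {y : Fpt I | Over s y ∧ y.Bd s.ε})
    (f := fun t => ⟨t.1.y, by
      obtain ⟨⟨s', y', hs', hy'⟩, h, h'⟩ := t
      simp only at h h'
      subst h
      exact ⟨hy', h'⟩⟩) ?_
  rintro ⟨⟨s1, y1, hs1, hy1⟩, h1, h1'⟩ ⟨⟨s2, y2, hs2, hy2⟩, h2, h2'⟩ h
  simp only [Subtype.mk.injEq] at h
  simp only at h1 h2
  subst h1 h2 h
  rfl

/-- Lemma A: countably many open dense sets of `T` have small parts which are predense below a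
condition. -/
theorem lemmaA (D : ℕ → Set (TC I)) (hD : ∀ n t, ∃ t' ≤ t, t' ∈ D n)
    (hO : ∀ n t t', t ∈ D n → t' ≤ t → t' ∈ D n) (t0 : TC I) :
    ∃ t ≤ t0, ∃ R : Set (TC I), Small.{0} R ∧
      ∀ n, ∀ p ≤ t, ∃ r ∈ R, r ∈ D n ∧ ∃ q, q ≤ p ∧ q ≤ r := by
  obtain ⟨s, hr, hst, hb, H⟩ := limA D hD hO t0
  have hy0 : Over s t0.y := t0.hy.mono t0.hs hst
  obtain ⟨hS, hSs⟩ := isSkl_top hr.skl hr.topH
  obtain ⟨hY, hYy⟩ := over_top hr.skl hy0 hr.topH hb.u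
  have h2 : YLe s t0.y t0.y := YLe.refl _ _
  let t : TC I := ⟨topS s s.ε s.X s.g, topY t0.y s.ε s.X, hS, hY⟩
  have ht0 : t ≤ t0 := ⟨hSs.trans hst, hYy⟩
  refine ⟨t, ht0, {t | t.s = s ∧ t.y.Bd s.ε}, small_R hr.skl, fun n p hp => ?_⟩
  obtain ⟨p', hp', hA⟩ := exists_aSit hr hy0 (t := t) rfl rfl hp
  obtain ⟨z, hzb, hzy, hs', hz, hzD⟩ := H (p'.y.tr s.ε s.X) (hA.over_tr hr.pos) hA.bd_tr n
  obtain ⟨q, hq1, hq2⟩ := hA.amalgam hz hzb hzy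
  exact ⟨⟨s, z, hs', hz⟩, ⟨rfl, hzb⟩, hzD, q, hq1.trans hp', hq2⟩

end Pool.Agent.CG3
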