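import Pool.Agent.Lib.MP_99c1f3_lc.CG.T.Defs

/-!
# CG3, block T, module Sz: small sets and sets of size at most `κ`

`Small.{0} X` = size `< κ`; `SzK N` = size `≤ κ` (an injection of `N` into `K0 = Ordinal.{0}`).
-/

set_option autoImplicit false

namespace Pool.Agent.CG3

open Set

universe v

variable {α β : Type 1}

/-- PROOF: `Small.{0} X` gives an equivalence of `X` with some `Y : Type 0`, and a well-order of
`Y` gives an injection of `Y` into `Iio γ`, `γ = (Cardinal.mk Y).ord`. Conversely `Iio γ` is small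
(`Ordinal.small_Iio` or `small_Iio`) and `small_of_injective`. -/
theorem small_iff_bd {X : Set α} :
    Small.{0} X ↔ ∃ (γ : K0) (f : α → K0), InjOn f X ∧ ∀ x ∈ X, f x < γ := by
  classical
  constructor
  · intro hX
    have h1 : Cardinal.mk X = Cardinal.lift.{1} (Cardinal.mk (Shrink.{0} X)) := by
      have h2 := Cardinal.lift_mk_eq'.2 ⟨equivShrink.{0} X⟩
      rw [Cardinal.lift_id'.{0, 1}] at h2
      exact h2
    have h3 : Cardinal.mk X ≤ Cardinal.mk (Iio (Cardinal.mk (Shrink.{0} X)).ord) := by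
      rw [Cardinal.mk_Iio_ordinal, Cardinal.card_ord, h1]
    obtain ⟨g⟩ := (Cardinal.le_def _ _).1 h3
    refine ⟨(Cardinal.mk (Shrink.{0} X)).ord, fun x => if h : x ∈ X then (g ⟨x, h⟩).1 else 0,
      ?_, ?_⟩
    · intro x hx y hy hxy
      simp only [hx, hy, dif_pos] at hxy
      exact congrArg Subtype.val (g.injective (Subtype.ext hxy))
    · intro x hx
      simp only [hx, dif_pos]
      exact (g ⟨x, hx⟩).2
  · rintro ⟨γ, f, hf, hγ⟩
    refine small_of_injective (f := fun x : X => (⟨f x.1, hγ x.1 x.2⟩ : Iio γ)) ?_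
    intro x y hxy
    exact Subtype.ext (hf x.2 y.2 (congrArg Subtype.val hxy))

/-- A small set of ordinals is bounded. PROOF: `Ordinal.bddAbove_of_small`, take `γ = sSup + 1`. -/
theorem bd_of_small {X : Set K0} (h : Small.{0} X) : ∃ γ : K0, ∀ x ∈ X, x < γ := by
  obtain ⟨b, hb⟩ := Ordinal.bddAbove_of_small (s := X)
  exact ⟨Order.succ b, fun x hx => Order.lt_succ_of_le (hb hx)⟩

theorem small_sub {X Y : Set α} (h : Small.{0} Y) (hXY : X ⊆ Y) : Small.{0} X :=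
  small_subset hXY

/-- The set of the subsets of a small set is small. -/
theorem small_powerset {X : Set α} (h : Small.{0} X) : Small.{0} {Y : Set α | Y ⊆ X} := by
  refine small_of_injective (f := fun Y : {Y : Set α | Y ⊆ X} =>
    {z : Shrink.{0} X | ((equivShrink X).symm z).1 ∈ Y.1}) ?_
  intro Y Z hYZ
  refine Subtype.ext (Set.ext fun a => ?_)
  by_cases ha : a ∈ X
  · have h1 := Set.ext_iff.1 hYZ (equivShrink X ⟨a, ha⟩)
    simpa only [mem_ofPred_eq, Equiv.symm_apply_apply] using h1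
  · exact ⟨fun h2 => absurd (Y.2 h2) ha, fun h2 => absurd (Z.2 h2) ha⟩

/-- PROOF: `small_biUnion` or `small_iUnion`. -/
theorem small_bUnion {X : Set α} (h : Small.{0} X) (F : α → Set β) (hF : ∀ x ∈ X, Small.{0} (F x)) :
    Small.{0} (⋃ x ∈ X, F x : Set β) := by
  rw [biUnion_eq_iUnion]
  have h1 : ∀ x : X, Small.{0} (F x.1) := fun x => hF x.1 x.2
  exact small_iUnion.{0} _

theorem SzK.of_small {N : Set α} (h : Small.{0} N) : SzK N := by
  obtain ⟨γ, f, hf, _⟩ := small_iff_bd.1 h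
  exact ⟨f, hf⟩

theorem SzK.mono {N M : Set α} (h : SzK M) (hN : N ⊆ M) : SzK N := by
  obtain ⟨f, hf⟩ := h
  exact ⟨f, hf.mono hN⟩

theorem SzK.univ : SzK (Set.univ : Set K0) := ⟨id, injOn_id _⟩

/-- PROOF: take for every point of the image one preimage in `N`. -/
theorem SzK.image {N : Set α} (h : SzK N) (F : α → β) : SzK (F '' N) := by
  classical
  obtain ⟨f, hf⟩ := h
  have h1 : ∀ y : ↥(F '' N), ∃ x, x ∈ N ∧ F x = y.1 := by
    rintro ⟨y, x, hx, hxy⟩
    exact ⟨x, hx, hxy⟩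
  choose p hp hp' using h1
  refine ⟨fun y => if hy : y ∈ F '' N then f (p ⟨y, hy⟩) else 0, ?_⟩
  intro y hy z hz hyz
  simp only [dif_pos hy, dif_pos hz] at hyz
  have h2 := hf (hp ⟨y, hy⟩) (hp ⟨z, hz⟩) hyz
  exact (hp' ⟨y, hy⟩).symm.trans ((congrArg F h2).trans (hp' ⟨z, hz⟩))

/-- An injection of `κ × κ` into `κ`. -/
private theorem sz_pair : ∃ P : K0 × K0 → K0, Function.Injective P := by
  have h1 : Infinite K0 := Infinite.of_injective (fun n : ℕ => (n : K0)) Nat.cast_injective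
  have h2 : Cardinal.mk (K0 × K0) = Cardinal.mk K0 := by
    rw [Cardinal.mk_prod, Cardinal.lift_id]
    exact Cardinal.mul_eq_self (Cardinal.aleph0_le_mk K0)
  obtain ⟨e⟩ := Cardinal.eq.1 h2
  exact ⟨e, e.injective⟩

/-- PROOF: fix an injection of `K0 × K0` into `K0` (cardinal arithmetic: `Cardinal.mk K0` is
infinite, `Cardinal.mul_eq_self`), send `x` to the pair of the least `i` with `x ∈ N i` and of the
code of `x` in `N i`. -/
theorem SzK.iUnion {N : K0 → Set α} (h : ∀ i, SzK (N i)) : SzK (⋃ i, N i) := by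
  classical
  obtain ⟨P, hP⟩ := sz_pair
  choose f hf using h
  have h1 : ∀ x : α, ∃ i, x ∈ (⋃ i, N i) → x ∈ N i := by
    intro x
    by_cases hx : x ∈ ⋃ i, N i
    · obtain ⟨i, hi⟩ := mem_iUnion.1 hx
      exact ⟨i, fun _ => hi⟩
    · exact ⟨0, fun h2 => absurd h2 hx⟩
  choose p hp using h1
  refine ⟨fun x => P (p x, f (p x) x), ?_⟩
  intro x hx y hy hxy
  have h2 := hP hxy
  have h3 : p x = p y := (Prod.ext_iff.1 h2).1
  have h4 : f (p x) x = f (p y) y := (Prod.ext_iff.1 h2).2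
  rw [← h3] at h4
  exact hf (p x) (hp x hx) (h3 ▸ hp y hy) h4

/-- PROOF: as `SzK.iUnion`, send `x` to the pair of the code of an index `m ∈ M` with `x ∈ F m` and
of the code of `x` in `F m`. -/
theorem SzK.biUnion {M : Set α} (hM : SzK M) {F : α → Set β} (h : ∀ m ∈ M, SzK (F m)) :
    SzK (⋃ m ∈ M, F m : Set β) := by
  classical
  obtain ⟨P, hP⟩ := sz_pair
  obtain ⟨c, hc⟩ := hM
  have h0 : ∀ m, ∃ f : β → K0, m ∈ M → InjOn f (F m) := by
    intro m
    by_cases hm : m ∈ M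
    · obtain ⟨f, hf⟩ := h m hm
      exact ⟨f, fun _ => hf⟩
    · exact ⟨fun _ => 0, fun h2 => absurd h2 hm⟩
  choose f hf using h0
  have h1 : ∀ x : ↥(⋃ m ∈ M, F m : Set β), ∃ m, m ∈ M ∧ x.1 ∈ F m := by
    rintro ⟨x, hx⟩
    obtain ⟨m, hm, hxm⟩ := mem_iUnion₂.1 hx
    exact ⟨m, hm, hxm⟩
  choose p hp hp' using h1
  refine ⟨fun x => if hx : x ∈ (⋃ m ∈ M, F m : Set β) then P (c (p ⟨x, hx⟩), f (p ⟨x, hx⟩) x)
    else 0, ?_⟩
  intro x hx y hy hxy
  simp only [dif_pos hx, dif_pos hy] at hxy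
  have h2 := hP hxy
  have h3 : p ⟨x, hx⟩ = p ⟨y, hy⟩ := hc (hp _) (hp _) (Prod.ext_iff.1 h2).1
  have h4 : f (p ⟨x, hx⟩) x = f (p ⟨y, hy⟩) y := (Prod.ext_iff.1 h2).2
  rw [← h3] at h4
  exact hf _ (hp ⟨x, hx⟩) (hp' ⟨x, hx⟩) (h3 ▸ hp' ⟨y, hy⟩) h4

theorem SzK.union {N M : Set α} (h : SzK N) (h' : SzK M) : SzK (N ∪ M) := by
  classical
  obtain ⟨P, hP⟩ := sz_pair
  obtain ⟨f, hf⟩ := h
  obtain ⟨g, hg⟩ := h'
  refine ⟨fun x => if x ∈ N then P (0, f x) else P (1, g x), ?_⟩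
  intro x hx y hy hxy
  by_cases hxN : x ∈ N <;> by_cases hyN : y ∈ N
  · simp only [if_pos hxN, if_pos hyN] at hxy
    exact hf hxN hyN (Prod.ext_iff.1 (hP hxy)).2
  · simp only [if_pos hxN, if_neg hyN] at hxy
    exact absurd (Prod.ext_iff.1 (hP hxy)).1 zero_ne_one
  · simp only [if_neg hxN, if_pos hyN] at hxy
    exact absurd (Prod.ext_iff.1 (hP hxy)).1 one_ne_zero
  · simp only [if_neg hxN, if_neg hyN] at hxy
    exact hg (hx.resolve_left hxN) (hy.resolve_left hyN) (Prod.ext_iff.1 (hP hxy)).2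

theorem SzK.prod {N : Set α} {M : Set β} (h : SzK N) (h' : SzK M) : SzK (N ×ˢ M) := by
  obtain ⟨P, hP⟩ := sz_pair
  obtain ⟨f, hf⟩ := h
  obtain ⟨g, hg⟩ := h'
  refine ⟨fun x => P (f x.1, g x.2), ?_⟩
  intro x hx y hy hxy
  have h2 := hP hxy
  exact Prod.ext (hf hx.1 hy.1 (Prod.ext_iff.1 h2).1) (hg hx.2 hy.2 (Prod.ext_iff.1 h2).2)

end Pool.Agent.CG3
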