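import Pool.Agent.Lib.MP_99c1f3_lc.CG.T.Defs

/-!
# CG3, block T, module Amalg: the amalgam of Lemma A
-/

set_option autoImplicit false

namespace Pool.Agent.CG3

open Set

variable {I : Type 1}

/-! ### Changing an approximation -/

/-- An undecided ordinal can be made `Out` without new elements of the club. -/
theorem outOne {u : Set (K0 × K0)} (hu : IsU u) {ν : K0} (hν : ¬ Dec u ν) :
    ∃ w, IsU w ∧ ULe w u ∧ Out w ν ∧ ∀ ξ, In w ξ → In u ξ := by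
  classical
  -- the last pair below `ν`
  have h0 : (0 : K0) < ν := by
    rcases eq_or_lt_of_le (zero_le (a := ν)) with h | h
    · exact (hν (Or.inl (h ▸ hu.zero))).elim
    · exact h
  obtain ⟨p0, hp0, hp0'⟩ := hu.zero
  obtain ⟨p, hp, hmax⟩ := (hu.fin.subset (fun q hq => hq.1 :
    {q : K0 × K0 | q ∈ u ∧ q.1 < ν} ⊆ u)).exists_maximalFor (fun q => q.1) _
    ⟨p0, hp0, by rw [hp0']; exact h0⟩
  obtain ⟨hpu, hpν⟩ := hp
  have hmax' : ∀ q ∈ u, q.1 < ν → q.1 ≤ p.1 := by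
    intro q hq hqν
    rcases le_total q.1 p.1 with h | h
    · exact h
    · exact hmax ⟨hq, hqν⟩ h
  have hp2 : p.2 < ν := by
    by_contra h
    exact hν (Or.inr ⟨p, hpu, hpν, not_lt.1 h⟩)
  refine ⟨{q | (q ∈ u ∧ q ≠ p) ∨ q = (p.1, ν)}, ?_, ?_, ?_, ?_⟩
  · constructor
    · refine (hu.fin.union (finite_singleton (p.1, ν))).subset ?_
      rintro q (h | h)
      · exact Or.inl h.1
      · exact Or.inr h
    · obtain ⟨q, hq, hq'⟩ := hu.zero
      by_cases h : q = p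
      · exact ⟨(p.1, ν), Or.inr rfl, by rw [← h]; exact hq'⟩
      · exact ⟨q, Or.inl ⟨hq, h⟩, hq'⟩
    · rintro q (h | h)
      · exact hu.le q h.1
      · rw [h]; exact hpν.le
    · rintro q (h | h) r (h' | h') hqr
      · exact hu.uni q h.1 r h'.1 hqr
      · exact (h.2 (hu.uni q h.1 p hpu (by rw [hqr, h']))).elim
      · exact (h'.2 (hu.uni r h'.1 p hpu (by rw [← hqr, h]))).elim
      · rw [h, h']
    · rintro q (h | h) r (h' | h') hqr
      · exact hu.sep q h.1 r h'.1 hqr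
      · rw [h'] at hqr ⊢
        exact hu.sep q h.1 p hpu hqr
      · rw [h] at hqr ⊢
        have h3 : ¬ r.1 < ν := fun h4 => absurd (hmax' r h'.1 h4) (not_le.2 hqr)
        rcases eq_or_lt_of_le (not_lt.1 h3) with h4 | h4
        · exact (hν (Or.inl ⟨r, h'.1, h4.symm⟩)).elim
        · exact h4
      · rw [h, h'] at hqr
        exact (lt_irrefl _ hqr).elim
  · intro q hq
    by_cases h : q = p
    · exact ⟨(p.1, ν), Or.inr rfl, by rw [h], by rw [h]; exact hp2.le⟩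
    · exact ⟨q, Or.inl ⟨hq, h⟩, rfl, le_rfl⟩
  · exact ⟨(p.1, ν), Or.inr rfl, hpν, le_rfl⟩
  · rintro ξ ⟨q, h | h, rfl⟩
    · exact ⟨q, h.1, rfl⟩
    · exact ⟨p, hpu, by rw [h]⟩

/-- Finitely many ordinals can be decided without new elements of the club. -/
theorem decFin {u : Set (K0 × K0)} (hu : IsU u) {F : Set K0} (hF : F.Finite) :
    ∃ w, IsU w ∧ ULe w u ∧ (∀ ν ∈ F, Dec w ν) ∧ ∀ ξ, In w ξ → In u ξ := by
  induction F, hF using Set.Finite.induction_on with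
  | empty => exact ⟨u, hu, ULe.refl u, fun _ h => h.elim, fun _ h => h⟩
  | @insert ν F _ _ ih =>
    obtain ⟨w, h1, h2, h3, h4⟩ := ih
    by_cases h : Dec w ν
    · refine ⟨w, h1, h2, ?_, h4⟩
      rintro ξ (rfl | hξ)
      · exact h
      · exact h3 ξ hξ
    · obtain ⟨w', h5, h6, h7, h8⟩ := outOne h1 h
      refine ⟨w', h5, h6.trans h2, ?_, fun ξ hξ => h4 ξ (h8 ξ hξ)⟩
      rintro ξ (rfl | hξ)
      · exact Or.inr h7
      · exact (h3 ξ hξ).mono h6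

/-- Two approximations, one below `δ` and the part above `δ` of another one. -/
theorem isU_glue {u w : Set (K0 × K0)} {δ : K0} (hu : IsU u) (hw : IsU w)
    (hb : ∀ p ∈ u, p.2 < δ) : IsU (u ∪ {q | q ∈ w ∧ δ ≤ q.1}) where
  fin := hu.fin.union (hw.fin.subset fun q hq => hq.1)
  zero := by
    obtain ⟨p, hp, h⟩ := hu.zero
    exact ⟨p, Or.inl hp, h⟩
  le := by
    rintro p (h | h)
    · exact hu.le p h
    · exact hw.le p h.1
  uni := by
    rintro p (h | h) q (h' | h') hpq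
    · exact hu.uni p h q h' hpq
    · exact absurd (h'.2.trans (hpq ▸ hu.le p h)) (not_le.2 (hb p h))
    · exact absurd (h.2.trans (hpq ▸ hu.le q h')) (not_le.2 (hb q h'))
    · exact hw.uni p h.1 q h'.1 hpq
  sep := by
    rintro p (h | h) q (h' | h') hpq
    · exact hu.sep p h q h' hpq
    · exact (hb p h).trans_le h'.2
    · exact absurd (h.2.trans hpq.le) (not_le.2 ((hu.le q h').trans_lt (hb q h')))
    · exact hw.sep p h.1 q h'.1 hpq

/-- Ordinals `≥ δ` can be put into the club if all ordinals of the approximation are `< δ`. -/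
theorem isU_ins {u : Set (K0 × K0)} {δ : K0} (hu : IsU u) (hb : ∀ p ∈ u, p.2 < δ)
    {F : Set K0} (hF : F.Finite) : IsU (u ∪ {q | q.1 = q.2 ∧ q.1 ∈ F ∧ δ ≤ q.1}) where
  fin := by
    refine hu.fin.union ((hF.image fun a : K0 => (a, a)).subset ?_)
    rintro ⟨a, b⟩ ⟨h1, h2, _⟩
    simp only at h1 h2
    subst h1
    exact ⟨a, h2, rfl⟩
  zero := by
    obtain ⟨p, hp, h⟩ := hu.zero
    exact ⟨p, Or.inl hp, h⟩
  le := by
    rintro p (h | h)
    · exact hu.le p h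
    · exact h.1.le
  uni := by
    rintro p (h | h) q (h' | h') hpq
    · exact hu.uni p h q h' hpq
    · exact absurd (h'.2.2.trans (hpq ▸ hu.le p h)) (not_le.2 (hb p h))
    · exact absurd (h.2.2.trans (hpq ▸ hu.le q h')) (not_le.2 (hb q h'))
    · exact Prod.ext hpq (by rw [← h.1, ← h'.1, hpq])
  sep := by
    rintro p (h | h) q (h' | h') hpq
    · exact hu.sep p h q h' hpq
    · exact (hb p h).trans_le h'.2.2
    · exact absurd (h.2.2.trans hpq.le) (not_le.2 ((hu.le q h').trans_lt (hb q h')))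
    · rw [← h.1]
      exact hpq

/-! ### The trace of a finite part -/

/-- All ordinals of the approximations and of the collapse are `< δ`. -/
structure Fpt.Bd (y : Fpt I) (δ : K0) : Prop where
  A : ∀ p ∈ y.A, p.1 < δ
  u : ∀ x ∈ y.a, ∀ p ∈ y.u x, p.2 < δ
  v : ∀ p ∈ y.v, p.1 < δ

/-- The trace of a finite part on `(δ, K)`. -/
def Fpt.tr (y : Fpt I) (δ : K0) (K : Set I) : Fpt I where
  A := {q | q ∈ y.A ∧ q.1 < δ ∧ q.2 ⊆ K}
  a := y.a ∩ K
  u x := {q | q ∈ y.u x ∧ q.1 < δ ∧ x ∈ K}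
  v := {q | q ∈ y.v ∧ q.1 < δ}

theorem Fpt.dec_tr {y : Fpt I} {δ : K0} {K : Set I} {x : I} (hx : x ∈ K) {ν : K0} (hν : ν < δ)
    (h : Dec (y.u x) ν) : Dec ((y.tr δ K).u x) ν := by
  rcases h with ⟨p, hp, h1⟩ | ⟨p, hp, h1, h2⟩
  · exact Or.inl ⟨p, ⟨hp, by rw [h1]; exact hν, hx⟩, h1⟩
  · exact Or.inr ⟨p, ⟨hp, h1.trans hν, hx⟩, h1, h2⟩

theorem Fpt.in_tr {y : Fpt I} {δ : K0} {K : Set I} {x : I} {ν : K0} :
    In ((y.tr δ K).u x) ν ↔ In (y.u x) ν ∧ ν < δ ∧ x ∈ K := by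
  constructor
  · rintro ⟨p, ⟨hp, h1, h2⟩, rfl⟩
    exact ⟨⟨p, hp, rfl⟩, h1, h2⟩
  · rintro ⟨⟨p, hp, rfl⟩, h1, h2⟩
    exact ⟨p, ⟨hp, h1, h2⟩, rfl⟩

theorem Fpt.Δ_tr {y : Fpt I} {δ : K0} {K : Set I} {ν : K0} (h : ν ∈ (y.tr δ K).Δ) :
    ν ∈ y.Δ ∧ ν < δ := by
  rcases h with ⟨x, hx, h⟩ | ⟨K', h⟩
  · obtain ⟨h1, h2, _⟩ := Fpt.in_tr.1 h
    exact ⟨Or.inl ⟨x, hx.1, h1⟩, h2⟩
  · exact ⟨Or.inr ⟨K', h.1⟩, h.2.1⟩

/-- The situation of Lemma A: `p` is below the condition with the top pair `(δ, K)`, `K` the set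
of all coordinates of the skeleton `s` of height `δ`, and the active side conditions of `p` are
closed under covering by `(δ, K)`. -/
structure ASit (s : Skl I) (δ : K0) (p : TC I) : Prop where
  hs : IsSkl s
  ε : s.ε = δ
  Slt : ∀ q ∈ s.S, q.1 < δ
  inj : ∀ x ∈ s.X, ∀ z ∈ s.X, x ≠ z → Df s.g x z δ
  le : SLe p.s s
  top : (δ, s.X) ∈ p.y.A
  frz : ∀ q ∈ p.s.S, q.1 < δ → q.2 ⊆ s.X → q ∈ s.S
  mem : ∀ x ∈ p.y.a, x ∈ s.X → In (p.y.u x) δ
  cl : ∀ q ∈ p.y.A, q.1 < δ → ∃ K, (q.1, K) ∈ p.y.A ∧ q.2 ∩ s.X ⊆ K ∧ K ⊆ s.X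

variable {s : Skl I} {δ : K0} {p : TC I}

theorem ASit.zero_lt (h : ASit s δ p) {x : I} (hx : x ∈ p.y.a) (hxX : x ∈ s.X)
    {q : K0 × K0} (hq : q ∈ p.y.u x) (hqδ : q.1 < δ) : q.2 < δ := by
  obtain ⟨r, hr, hr'⟩ := h.mem x hx hxX
  have := (p.hy.u x hx).sep q hq r hr (by rw [hr']; exact hqδ)
  rwa [hr'] at this

/-- The trace is a finite part over `s` with ordinals `< δ`. -/
theorem ASit.over_tr (h : ASit s δ p) (hδ : 0 < δ) : Over s (p.y.tr δ s.X) where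
  Afin := p.hy.Afin.subset fun q hq => hq.1
  AS := fun q hq => h.frz q (p.hy.AS hq.1) hq.2.1 hq.2.2
  afin := p.hy.afin.subset fun x hx => hx.1
  aX := fun x hx => hx.2
  dis := fun x hx z hz hxz => (h.inj x hx.2 z hz.2 hxz).le h.ε.ge
  u := fun x hx => by
    have hu := p.hy.u x hx.1
    exact
    { fin := hu.fin.subset fun q hq => hq.1
      zero := Fpt.in_tr.2 ⟨hu.zero, hδ, hx.2⟩
      le := fun q hq => hu.le q hq.1
      uni := fun q hq r hr => hu.uni q hq.1 r hr.1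
      sep := fun q hq r hr => hu.sep q hq.1 r hr.1 }
  u0 := fun x hx => by
    apply eq_empty_iff_forall_notMem.2
    rintro q ⟨h1, _, h3⟩
    have h4 : x ∉ p.y.a := fun h5 => hx ⟨h5, h3⟩
    rw [p.hy.u0 x h4] at h1
    exact h1
  dec := fun x hx ν hν => by
    obtain ⟨h1, h2⟩ := Fpt.Δ_tr hν
    exact Fpt.dec_tr hx.2 h2 (p.hy.dec x hx.1 ν h1)
  v :=
    { fin := p.hy.v.fin.subset fun q hq => hq.1
      lt := fun q hq => p.hy.v.lt q hq.1
      uni := fun q hq r hr => p.hy.v.uni q hq.1 r hr.1 }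

theorem ASit.bd_tr (h : ASit s δ p) : (p.y.tr δ s.X).Bd δ where
  A := fun _ hq => hq.2.1
  u := fun _ hx _ hq => h.zero_lt hx.1 hx.2 hq.1 hq.2.1
  v := fun _ hq => hq.2

theorem IsU.in_finite {u : Set (K0 × K0)} (h : IsU u) : {ν | In u ν}.Finite := by
  refine (h.fin.image Prod.fst).subset ?_
  rintro ν ⟨q, hq, rfl⟩
  exact ⟨q, hq, rfl⟩

theorem Over.Δ_finite {s : Skl I} {y : Fpt I} (h : Over s y) : y.Δ.Finite := by
  have h1 : (⋃ x ∈ y.a, {ν | In (y.u x) ν}).Finite :=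
    h.afin.biUnion fun x hx => (h.u x hx).in_finite
  refine (h1.union (h.Afin.image Prod.fst)).subset ?_
  rintro ν (⟨x, hx, h⟩ | ⟨K, h⟩)
  · exact Or.inl (mem_biUnion hx h)
  · exact Or.inr ⟨_, h, rfl⟩

/-- The approximation of the amalgam in one coordinate. -/
theorem ASit.exists_u (_h : ASit s δ p) {y' : Fpt I} (hy' : Over s y') (hb : y'.Bd δ)
    (hle : YLe s y' (p.y.tr δ s.X)) (x : I) : ∃ w : Set (K0 × K0),
      (x ∈ p.y.a ∪ y'.a → IsU w ∧ ∀ ν ∈ p.y.Δ ∪ y'.Δ, Dec w ν) ∧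
      (x ∈ p.y.a → ULe w (p.y.u x)) ∧ (x ∈ y'.a → ULe w (y'.u x)) ∧
      (x ∈ p.y.a → ∀ ν, In w ν → In (p.y.u x) ν ∨ (x ∈ s.X ∧ ν < δ ∧ In (y'.u x) ν)) ∧
      (x ∈ y'.a → ∀ ν, In w ν → In (y'.u x) ν ∨ δ ≤ ν) ∧
      (x ∈ y'.a → x ∉ p.y.a → ∀ q ∈ p.y.A, x ∈ q.2 → δ ≤ q.1 → In w q.1) ∧
      (∀ ν, In w ν → ν ∈ p.y.Δ ∪ y'.Δ) ∧ (x ∉ p.y.a ∪ y'.a → w = ∅) := by
  by_cases hxp : x ∈ p.y.a
  · have hup := p.hy.u x hxp
    by_cases hxX : x ∈ s.X
    · -- glue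
      have hxy : x ∈ y'.a := hle.a ⟨hxp, hxX⟩
      have huy := hy'.u x hxy
      have hbu := hb.u x hxy
      have huu : ULe (y'.u x) ((p.y.tr δ s.X).u x) := hle.u x ⟨hxp, hxX⟩
      have hI : IsU (y'.u x ∪ {q | q ∈ p.y.u x ∧ δ ≤ q.1}) := isU_glue huy hup hbu
      have hl1 : ULe (y'.u x ∪ {q | q ∈ p.y.u x ∧ δ ≤ q.1}) (y'.u x) :=
        fun q hq => ⟨q, Or.inl hq, rfl, le_rfl⟩
      have hl2 : ULe (y'.u x ∪ {q | q ∈ p.y.u x ∧ δ ≤ q.1}) (p.y.u x) := by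
        intro q hq
        by_cases hqδ : q.1 < δ
        · obtain ⟨r, hr, h1, h2⟩ := huu q ⟨hq, hqδ, hxX⟩
          exact ⟨r, Or.inl hr, h1, h2⟩
        · exact ⟨q, Or.inr ⟨hq, not_lt.1 hqδ⟩, rfl, le_rfl⟩
      have hin : ∀ ν, In (y'.u x ∪ {q | q ∈ p.y.u x ∧ δ ≤ q.1}) ν →
          (In (y'.u x) ν ∧ ν < δ) ∨ (In (p.y.u x) ν ∧ δ ≤ ν) := by
        rintro ν ⟨q, hq | hq, rfl⟩
        · exact Or.inl ⟨⟨q, hq, rfl⟩, (huy.le q hq).trans_lt (hbu q hq)⟩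
        · exact Or.inr ⟨⟨q, hq.1, rfl⟩, hq.2⟩
      refine ⟨_, fun _ => ⟨hI, ?_⟩, fun _ => hl2, fun _ => hl1, ?_, ?_, ?_, ?_, ?_⟩
      · rintro ν (hν | hν)
        · exact (p.hy.dec x hxp ν hν).mono hl2
        · exact (hy'.dec x hxy ν hν).mono hl1
      · intro _ ν hν
        rcases hin ν hν with h1 | h1
        · exact Or.inr ⟨hxX, h1.2, h1.1⟩
        · exact Or.inl h1.1
      · intro _ ν hν
        rcases hin ν hν with h1 | h1
        · exact Or.inl h1.1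
        · exact Or.inr h1.2
      · intro _ h1
        exact absurd hxp h1
      · intro ν hν
        rcases hin ν hν with h1 | h1
        · exact Or.inr (Or.inl ⟨x, hxy, h1.1⟩)
        · exact Or.inl (Or.inl ⟨x, hxp, h1.1⟩)
      · intro h1
        exact absurd (Or.inl hxp) h1
    · have hxy : x ∉ y'.a := fun h1 => hxX (hy'.aX h1)
      obtain ⟨w, h1, h2, h3, h4⟩ := decFin hup hy'.Δ_finite
      refine ⟨w, fun _ => ⟨h1, ?_⟩, fun _ => h2, fun h5 => absurd h5 hxy,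
        fun _ ν hν => Or.inl (h4 ν hν), fun h5 => absurd h5 hxy, fun h5 => absurd h5 hxy,
        fun ν hν => Or.inl (Or.inl ⟨x, hxp, h4 ν hν⟩), fun h5 => absurd (Or.inl hxp) h5⟩
      rintro ν (hν | hν)
      · exact (p.hy.dec x hxp ν hν).mono h2
      · exact h3 ν hν
  · by_cases hxy : x ∈ y'.a
    · have huy := hy'.u x hxy
      have hbu := hb.u x hxy
      have hF : {ν : K0 | ∃ K, (ν, K) ∈ p.y.A ∧ x ∈ K}.Finite := Fpt.act_finite p.hy.Afin x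
      obtain ⟨w, h1, h2, h3, h4⟩ := decFin (isU_ins huy hbu hF) p.hy.Δ_finite
      have hl : ULe w (y'.u x) := h2.trans fun q hq => ⟨q, Or.inl hq, rfl, le_rfl⟩
      have hin : ∀ ν, In w ν → In (y'.u x) ν ∨ ((∃ K, (ν, K) ∈ p.y.A ∧ x ∈ K) ∧ δ ≤ ν) := by
        intro ν hν
        obtain ⟨q, hq | hq, rfl⟩ := h4 ν hν
        · exact Or.inl ⟨q, hq, rfl⟩
        · exact Or.inr ⟨hq.2.1, hq.2.2⟩
      refine ⟨w, fun _ => ⟨h1, ?_⟩, fun h5 => absurd h5 hxp, fun _ => hl,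
        fun h5 => absurd h5 hxp, ?_, ?_, ?_, fun h5 => absurd (Or.inr hxy) h5⟩
      · rintro ν (hν | hν)
        · exact h3 ν hν
        · exact (hy'.dec x hxy ν hν).mono hl
      · intro _ ν hν
        rcases hin ν hν with h5 | h5
        · exact Or.inl h5
        · exact Or.inr h5.2
      · intro _ _ q hq hxq hqδ
        exact In.mono ⟨(q.1, q.1), Or.inr ⟨rfl, ⟨q.2, hq, hxq⟩, hqδ⟩, rfl⟩ h2
      · intro ν hν
        rcases hin ν hν with h5 | ⟨⟨K, h5, _⟩, _⟩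
        · exact Or.inr (Or.inl ⟨x, hxy, h5⟩)
        · exact Or.inl (Or.inr ⟨K, h5⟩)
    · exact ⟨∅, fun h5 => (h5.elim hxp hxy).elim, fun h5 => absurd h5 hxp,
        fun h5 => absurd h5 hxy, fun h5 => absurd h5 hxp, fun h5 => absurd h5 hxy,
        fun h5 => absurd h5 hxy, fun ν ⟨q, hq, _⟩ => hq.elim, fun _ => rfl⟩

/-- The Cohen parts of finitely many coordinates can be made different. -/
theorem exists_sep {r : Skl I} (hr : IsSkl r) {F : Set I} (hF : F.Finite) (hFX : F ⊆ r.X) :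
    ∃ r', IsSkl r' ∧ SLe r' r ∧ r'.X = r.X ∧ r'.S = r.S ∧
      ∀ x ∈ F, ∀ z ∈ F, x ≠ z → Df r'.g x z r'.ε := by
  obtain ⟨f, hf⟩ := countable_iff_exists_injOn.1 hF.countable
  have hlt : ∀ x, r.ε + f x < r.ε + Ordinal.omega0 := fun x =>
    (add_lt_add_iff_left _).2 (Ordinal.natCast_lt_omega0 _)
  have hle : r.ε ≤ r.ε + Ordinal.omega0 := le_self_add
  have hg : ∀ x, ∀ ν < r.ε, ((ν ∈ r.g x ∨ (x ∈ F ∧ ν = r.ε + f x)) ↔ ν ∈ r.g x) := by
    intro x ν hν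
    refine ⟨fun h1 => h1.elim id fun h2 => ?_, Or.inl⟩
    rw [h2.2] at hν
    exact absurd le_self_add (not_le.2 hν)
  refine ⟨⟨r.ε + Ordinal.omega0, r.X, fun x => {ν | ν ∈ r.g x ∨ (x ∈ F ∧ ν = r.ε + f x)}, r.S⟩,
    ?_, ?_, rfl, rfl, ?_⟩
  · refine ⟨hr.smX, hr.smS, ?_, ?_, fun q hq => (hr.le q hq).trans hle, hr.sub, ?_, hr.cov⟩
    · rintro x ν (h1 | h1)
      · exact (hr.gε x ν h1).trans_le hle
      · rw [h1.2]
        exact hlt x
    · intro x hx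
      apply eq_empty_iff_forall_notMem.2
      rintro ν (h1 | h1)
      · rw [hr.gX x hx] at h1
        exact h1
      · exact hx (hFX h1.1)
    · intro q hq x hx z hz hxz
      obtain ⟨ν, h1, h2⟩ := hr.dist q hq x hx z hz hxz
      have h3 := h1.trans_le (hr.le q hq)
      refine ⟨ν, h1, ?_⟩
      show ¬ ((ν ∈ r.g x ∨ (x ∈ F ∧ ν = r.ε + f x)) ↔ (ν ∈ r.g z ∨ (z ∈ F ∧ ν = r.ε + f z)))
      rw [hg x ν h3, hg z ν h3]
      exact h2
  · exact ⟨hle, subset_rfl, fun x _ ν hν => hg x ν hν, subset_rfl, fun _ _ q hq _ _ => hq⟩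
  · intro x hx z hz hxz
    refine ⟨r.ε + f x, hlt x, fun h1 => ?_⟩
    have h2 := h1.1 (Or.inr ⟨hx, rfl⟩)
    rcases h2 with h2 | ⟨_, h2⟩
    · exact absurd le_self_add (not_le.2 (hr.gε z _ h2))
    · have h3 : (f x : Ordinal.{0}) = f z := add_left_cancel h2
      exact hxz (hf hx hz (by exact_mod_cast h3))

/-- The amalgam of Lemma A. -/
theorem ASit.amalgam (h : ASit s δ p) {y' : Fpt I} (hy' : Over s y') (hb : y'.Bd δ)
    (hle : YLe s y' (p.y.tr δ s.X)) :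
    ∃ p' : TC I, p' ≤ p ∧ p' ≤ (⟨s, y', h.hs, hy'⟩ : TC I) := by
  choose U hU1 hU2 hU3 hU4 hU5 hU6 hU7 hU8 using h.exists_u hy' hb hle
  have hfin : (p.y.a ∪ y'.a).Finite := p.hy.afin.union hy'.afin
  have haX : p.y.a ∪ y'.a ⊆ p.s.X := union_subset p.hy.aX (hy'.aX.trans h.le.X)
  obtain ⟨r, hr, hrp, hrX, hrS, hrd⟩ := exists_sep p.hs hfin haX
  have hrs : SLe r s := hrp.trans h.le
  let y : Fpt I := ⟨p.y.A ∪ y'.A, p.y.a ∪ y'.a, U, p.y.v ∪ y'.v⟩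
  have hΔ : ∀ ν ∈ y.Δ, ν ∈ p.y.Δ ∪ y'.Δ := by
    rintro ν (⟨x, _, h1⟩ | ⟨K, h1 | h1⟩)
    · exact hU7 x ν h1
    · exact Or.inl (Or.inr ⟨K, h1⟩)
    · exact Or.inr (Or.inr ⟨K, h1⟩)
  have hover : Over r y :=
    { Afin := p.hy.Afin.union hy'.Afin
      AS := by
        rw [hrS]
        exact union_subset p.hy.AS (hy'.AS.trans h.le.S)
      afin := hfin
      aX := by
        rw [hrX]
        exact haX
      dis := hrd
      u := fun x hx => (hU1 x hx).1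
      u0 := fun x hx => hU8 x hx
      dec := fun x hx ν hν => (hU1 x hx).2 ν (hΔ ν hν)
      v :=
        { fin := p.hy.v.fin.union hy'.v.fin
          lt := by
            rintro q (h1 | h1)
            · exact p.hy.v.lt q h1
            · exact hy'.v.lt q h1
          uni := by
            have key : ∀ q ∈ p.y.v, ∀ q' ∈ y'.v, q.1 = q'.1 → q.2.1 = q'.2.1 → q = q' := by
              intro q hq q' hq' h1 h2
              exact hy'.v.uni q (hle.v ⟨hq, by rw [h1]; exact hb.v q' hq'⟩) q' hq' h1 h2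
            rintro q (h1 | h1) q' (h2 | h2) h3 h4
            · exact p.hy.v.uni q h1 q' h2 h3 h4
            · exact key q h1 q' h2 h3 h4
            · exact (key q' h2 q h1 h3.symm h4.symm).symm
            · exact hy'.v.uni q h1 q' h2 h3 h4 } }
  refine ⟨⟨r, y, hr, hover⟩, ⟨hrp, ?_⟩, ⟨hrs, ?_⟩⟩
  · refine ⟨subset_union_left, subset_union_left, hU2, subset_union_left, ?_, ?_⟩
    · rintro x (hx | hx) hxp q hq hxq
      · exact absurd hx hxp
      · rcases le_or_gt δ q.1 with h1 | h1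
        · exact hU6 x hx hxp q hq hxq h1
        · obtain ⟨K, hK1, hK2, hK3⟩ := h.cl q hq h1
          have hxX := hy'.aX hx
          exact (hle.act x hx (fun h2 => hxp h2.1) (q.1, K) ⟨hK1, h1, hK3⟩ (hK2 ⟨hxq, hxX⟩)).mono
            (hU3 x hx)
    · intro x hx x' hx' hxx ν h1 h2 h3
      have key : ∀ x ∈ p.y.a, In (U x) ν → x ∈ s.X ∧ ν < δ ∧ In (y'.u x) ν := by
        intro x hx h1
        rcases hU4 x hx ν h1 with h4 | h4
        · exact absurd (Or.inl ⟨x, hx, h4⟩) h3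
        · exact h4
      obtain ⟨h4, h5, h6⟩ := key x hx h1
      obtain ⟨h7, _, h8⟩ := key x' hx' h2
      exact (hle.tt x ⟨hx, h4⟩ x' ⟨hx', h7⟩ hxx ν h6 h8 (fun h9 => h3 (Fpt.Δ_tr h9).1)).mono
        h.hs hrs h4 h7
  · refine ⟨subset_union_right, subset_union_right, hU3, subset_union_right, ?_, ?_⟩
    · rintro x (hx | hx) hxy q hq hxq
      · exact absurd (hle.a ⟨hx, h.hs.sub q (hy'.AS hq) hxq⟩) hxy
      · exact absurd hx hxy
    · intro x hx x' hx' hxx ν h1 h2 h3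
      have h4 : δ ≤ ν := by
        rcases hU5 x hx ν h1 with h4 | h4
        · exact absurd (Or.inl ⟨x, hx, h4⟩) h3
        · exact h4
      exact ((h.inj x (hy'.aX hx) x' (hy'.aX hx') hxx).le h4).mono h.hs hrs (hy'.aX hx)
        (hy'.aX hx')

end Pool.Agent.CG3
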