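import Pool.Agent.Lib.MP_99c1f3_lc.CG.T.LemA1

/-!
# CG3, block T, module LemA2: the union of `ω` steps
-/

set_option autoImplicit false

namespace Pool.Agent.CG3

open Set

variable {I : Type 1}

private theorem lemA2_bd_mono {y : Fpt I} {δ δ' : K0} (h : y.Bd δ) (hd : δ ≤ δ') : y.Bd δ' where
  A p hp := (h.A p hp).trans_le hd
  u x hx p hp := (h.u x hx p hp).trans_le hd
  v p hp := (h.v p hp).trans_le hd

/-- a finite set of ordinals is bounded -/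
private theorem lemA2_fin_bd {X : Set K0} (h : X.Finite) : ∃ γ : K0, ∀ x ∈ X, x < γ := by
  obtain ⟨m, hm⟩ := h.bddAbove
  exact ⟨Order.succ m, fun x hx => Order.lt_succ_of_le (hm hx)⟩

/-- the ordinals of a finite part are bounded -/
private theorem lemA2_bd {s : Skl I} {z : Fpt I} (hz : Over s z) : ∃ γ, z.Bd γ := by
  have h1 : (Prod.fst '' z.A).Finite := hz.Afin.image _
  have h2 : (⋃ x ∈ z.a, Prod.snd '' (z.u x)).Finite :=
    hz.afin.biUnion fun x hx => (hz.u x hx).fin.image _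
  have h3 : (Prod.fst '' z.v).Finite := hz.v.fin.image _
  obtain ⟨γ, hγ⟩ := lemA2_fin_bd ((h1.union h2).union h3)
  refine ⟨γ, ⟨fun p hp => ?_, fun x hx p hp => ?_, fun p hp => ?_⟩⟩
  · exact hγ _ (Or.inl (Or.inl ⟨p, hp, rfl⟩))
  · exact hγ _ (Or.inl (Or.inr (mem_biUnion hx ⟨p, hp, rfl⟩)))
  · exact hγ _ (Or.inr ⟨p, hp, rfl⟩)

private theorem lemA2_inD {D : Set (TC I)} (hO : ∀ t t', t ∈ D → t' ≤ t → t' ∈ D) {r s : Skl I}
    {z : Fpt I} (h : InD D s z) (hr : IsSkl r) (hrs : SLe r s) : InD D r z := by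
  obtain ⟨hs, hz, hD⟩ := h
  exact ⟨hr, hz.mono hs hrs, hO _ _ hD ⟨hrs, YLe.refl _ _⟩⟩

/-- one step: `stepA`, bounding the new finite parts, `exists_rdy` -/
private theorem lemA2_step (D : ℕ → Set (TC I)) (hD : ∀ n t, ∃ t' ≤ t, t' ∈ D n)
    (hO : ∀ n t t', t ∈ D n → t' ≤ t → t' ∈ D n) (γ0 : K0) {s : Skl I} (hs : IsSkl s) :
    ∃ r, Rdy r ∧ SLe r s ∧ γ0 < r.ε ∧ s.ε < r.ε ∧
      ∀ y, Over s y → y.Bd s.ε → ∀ n, ∃ z, z.Bd r.ε ∧ YLe r z y ∧ InD (D n) r z := by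
  obtain ⟨r1, hr1, h1, h2⟩ := stepA D hD hO hs s.ε
  -- choose the finite parts
  have h3 : ∀ e : {y : Fpt I | Over s y ∧ y.Bd s.ε} × ℕ, ∃ z : Fpt I,
      YLe r1 z e.1.1 ∧ InD (D e.2) r1 z := fun e => h2 e.1.1 e.1.2.1 e.1.2.2 e.2
  choose Z hZ1 hZ2 using h3
  have h4 : ∀ e, ∃ γ, (Z e).Bd γ := by
    intro e
    obtain ⟨_, hz, _⟩ := hZ2 e
    exact lemA2_bd hz
  choose Γ hΓ using h4
  have hsm : Small.{0} {y : Fpt I | Over s y ∧ y.Bd s.ε} := small_fpt hs s.ε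
  have hsm2 : Small.{0} (Set.range Γ) := by
    have := hsm
    infer_instance
  obtain ⟨γ1, hγ1⟩ := bd_of_small hsm2
  obtain ⟨r, hr, h5, h6, h7, _, _⟩ := exists_rdy hr1 (max γ0 γ1)
  refine ⟨r, hr, h5.trans h1, (le_max_left _ _).trans_lt h6, h1.ε.trans_lt h7, ?_⟩
  intro y hy hyb n
  refine ⟨Z (⟨y, hy, hyb⟩, n), ?_, ?_, ?_⟩
  · refine lemA2_bd_mono (hΓ _) ?_
    exact ((hγ1 _ ⟨_, rfl⟩).le.trans (le_max_right γ0 γ1)).trans h6.le
  · exact (hZ1 (⟨y, hy, hyb⟩, n)).skl hr1 (hy.mono hs h1) h5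
  · exact lemA2_inD (hO n) (hZ2 (⟨y, hy, hyb⟩, n)) hr.skl h5

private theorem lemA2_dir {α : Type*} {F : Set α} (hF : F.Finite) (P : α → ℕ → Prop)
    (hm : ∀ a i j, i ≤ j → P a i → P a j) (h : ∀ a ∈ F, ∃ k, P a k) :
    ∃ k, ∀ a ∈ F, P a k := by
  induction F, hF using Set.Finite.induction_on with
  | empty => exact ⟨0, fun a ha => ha.elim⟩
  | @insert a F _ _ ih =>
    obtain ⟨k, hk⟩ := ih fun b hb => h b (Or.inr hb)
    obtain ⟨l, hl⟩ := h a (Or.inl rfl)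
    refine ⟨max k l, ?_⟩
    rintro b (rfl | hb)
    · exact hm _ _ _ (le_max_right _ _) hl
    · exact hm _ _ _ (le_max_left _ _) (hk b hb)

/-- The limit skeleton of Lemma A.

PROOF: define `s 0, s 1, ...` with `s 0 = t0.s`. Given `s k` let `s' k` be a ready skeleton below it
with `s (k).ε < (s' k).ε`, and for `k = 0` also `(s' 0).ε` larger than all ordinals of the finite
part `t0.y` (`exists_rdy`), and let `s'' k` be given by `stepA` for `s' k` and `γ = (s' k).ε`; let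
`γ k` be larger than all ordinals of the finitely parts `z` chosen in `stepA` (they form a small
set: choose `z` for every element of the small set `{y | Over (s' k) y ∧ y.Bd γ} × ℕ`; the set of
their ordinals is small, `bd_of_small`); `s (k + 1)` is given by `exists_rdy` for `s'' k` and `γ k`.
So one may arrange: all `s k`, `k ≥ 1`, are ready, `(s k).ε < (s (k + 1)).ε`, and for every `y` over
`s k` with ordinals `< (s k).ε` and `n` there is `z` with `YLe (s (k+1)) z y`, `z.Bd (s (k+1)).ε`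
and `InD (D n) (s (k+1)) z`. Let `s = limS (range s)`, so `s.ε = sup (s k).ε` is a limit, all pairs
of `s.S` are in some `(s k).S` with ordinals `≤ (s k).ε < (s (k+1)).ε ≤ s.ε`, and different `x, z`
in `s.X` are in some `(s k).X` with `k ≥ 1`, so their Cohen parts are different. A finite part `y`
over `s` with `y.Bd s.ε` is a finite part over some `s k` (finitely many pairs, coordinates and
ordinals; `dis` from `Rdy.inj` of `s k`) with `y.Bd (s k).ε`; the `z` for it satisfies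
`YLe s z y` by `YLe.skl` and `InD (D n) s z` because `⟨s, z⟩ ≤ ⟨s (k+1), z⟩` and `hO`. -/
theorem limA (D : ℕ → Set (TC I)) (hD : ∀ n t, ∃ t' ≤ t, t' ∈ D n)
    (hO : ∀ n t t', t ∈ D n → t' ≤ t → t' ∈ D n) (t0 : TC I) :
    ∃ s, Rdy s ∧ SLe s t0.s ∧ t0.y.Bd s.ε ∧
      ∀ y, Over s y → y.Bd s.ε → ∀ n, ∃ z, z.Bd s.ε ∧ YLe s z y ∧ InD (D n) s z := by
  obtain ⟨γ0, hγ0⟩ := lemA2_bd t0.hy
  have hst := fun s : {s : Skl I // IsSkl s} => lemA2_step D hD hO γ0 s.2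
  choose R hR1 hR2 hR3 hR4 hR5 using hst
  -- the sequence
  let q : ℕ → {s : Skl I // IsSkl s} := fun k =>
    Nat.rec ⟨t0.s, t0.hs⟩ (fun _ s => ⟨R s, (hR1 s).skl⟩) k
  have hq0 : (q 0).1 = t0.s := rfl
  have hqs : ∀ k, (q (k + 1)).1 = R (q k) := fun _ => rfl
  have q1 : ∀ k, Rdy (q (k + 1)).1 := fun k => hR1 (q k)
  have q2 : ∀ k, SLe (q (k + 1)).1 (q k).1 := fun k => hR2 (q k)
  have q3 : ∀ k, γ0 < (q (k + 1)).1.ε := fun k => hR3 (q k)
  have q4 : ∀ k, (q k).1.ε < (q (k + 1)).1.ε := fun k => hR4 (q k)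
  have q5 : ∀ k y, Over (q k).1 y → y.Bd (q k).1.ε → ∀ n, ∃ z, z.Bd (q (k + 1)).1.ε ∧
      YLe (q (k + 1)).1 z y ∧ InD (D n) (q (k + 1)).1 z := fun k => hR5 (q k)
  have qm : ∀ i j, i ≤ j → SLe (q j).1 (q i).1 := by
    intro i j hij
    induction j, hij using Nat.le_induction with
    | base => exact SLe.refl _
    | succ j _ ih => exact (q2 j).trans ih
  -- the limit
  obtain ⟨hs, hle⟩ := isSkl_limS (Set.range fun k => (q k).1) ⟨_, 0, rfl⟩ inferInstance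
    (by rintro _ ⟨k, rfl⟩; exact (q k).2)
    (by
      rintro _ ⟨i, rfl⟩ _ ⟨j, rfl⟩
      rcases le_total i j with h | h
      · exact Or.inr (qm i j h)
      · exact Or.inl (qm j i h))
  set s := limS (Set.range fun k => (q k).1) with hsdef
  have hsk : ∀ k, SLe s (q k).1 := fun k => hle _ ⟨k, rfl⟩
  have hε : ∀ k, (q k).1.ε < s.ε := fun k => (q4 k).trans_le (hsk (k + 1)).ε
  have hsup : ∀ ν < s.ε, ∃ k, ν < (q k).1.ε := by
    intro ν hν
    obtain ⟨_, ⟨_, ⟨k, rfl⟩, rfl⟩, h⟩ :=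
      exists_lt_of_lt_csSup (s := Skl.ε '' Set.range fun k => (q k).1)
        ⟨_, _, ⟨0, rfl⟩, rfl⟩ hν
    exact ⟨k, h⟩
  have hεm : ∀ i j, i ≤ j → (q i).1.ε ≤ (q j).1.ε := fun i j h => (qm i j h).ε
  have hrdy : Rdy s := by
    refine ⟨hs, (zero_le (a := (q 0).1.ε)).trans_lt (hε 0), ?_, ?_⟩
    · rintro p ⟨_, ⟨k, rfl⟩, hp⟩
      exact ((q k).2.le p hp).trans_lt (hε k)
    · rintro x ⟨_, ⟨i, rfl⟩, hx⟩ z ⟨_, ⟨j, rfl⟩, hz⟩ hxz
      have hx' : x ∈ (q (max i j + 1)).1.X :=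
        (qm i _ ((le_max_left i j).trans (Nat.le_succ _))).X hx
      have hz' : z ∈ (q (max i j + 1)).1.X :=
        (qm j _ ((le_max_right i j).trans (Nat.le_succ _))).X hz
      exact (((q1 (max i j)).inj x hx' z hz' hxz).mono (q (max i j + 1)).2 (hsk (max i j + 1))
        hx' hz').le (hε (max i j + 1)).le
  refine ⟨s, hrdy, hq0 ▸ hsk 0, lemA2_bd_mono hγ0 ((q3 0).trans (hε 1)).le, ?_⟩
  intro y hy hyb n
  -- find the stage
  obtain ⟨k1, hk1⟩ := lemA2_dir hy.Afin (fun p k => p ∈ (q k).1.S)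
    (fun p i j h hp => (qm i j h).S hp) (fun p hp => by
      obtain ⟨_, ⟨k, rfl⟩, h⟩ := hy.AS hp
      exact ⟨k, h⟩)
  obtain ⟨k2, hk2⟩ := lemA2_dir hy.afin (fun x k => x ∈ (q k).1.X)
    (fun p i j h hp => (qm i j h).X hp) (fun p hp => by
      obtain ⟨_, ⟨k, rfl⟩, h⟩ := hy.aX hp
      exact ⟨k, h⟩)
  obtain ⟨k3, hk3⟩ := lemA2_dir hy.Afin (fun p k => p.1 < (q k).1.ε)
    (fun p i j h hp => hp.trans_le (hεm i j h)) (fun p hp => hsup _ (hyb.A p hp))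
  obtain ⟨k4, hk4⟩ := lemA2_dir hy.afin (fun x k => ∀ p ∈ y.u x, p.2 < (q k).1.ε)
    (fun x i j h hp p h1 => (hp p h1).trans_le (hεm i j h)) (fun x hx =>
      lemA2_dir (hy.u x hx).fin (fun p k => p.2 < (q k).1.ε)
        (fun p i j h hp => hp.trans_le (hεm i j h)) (fun p hp => hsup _ (hyb.u x hx p hp)))
  obtain ⟨k5, hk5⟩ := lemA2_dir hy.v.fin (fun p k => p.1 < (q k).1.ε)
    (fun p i j h hp => hp.trans_le (hεm i j h)) (fun p hp => hsup _ (hyb.v p hp))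
  obtain ⟨k, h1, h2, h3, h4, h5⟩ : ∃ k, k1 ≤ k + 1 ∧ k2 ≤ k + 1 ∧ k3 ≤ k + 1 ∧ k4 ≤ k + 1 ∧
      k5 ≤ k + 1 := ⟨k1 + k2 + k3 + k4 + k5, by omega, by omega, by omega, by omega, by omega⟩
  have hyX : y.a ⊆ (q (k + 1)).1.X := fun x hx => (qm _ _ h2).X (hk2 x hx)
  have hyo : Over (q (k + 1)).1 y :=
    { Afin := hy.Afin
      AS := fun p hp => (qm _ _ h1).S (hk1 p hp)
      afin := hy.afin
      aX := hyX
      dis := fun x hx z hz hxz => (q1 k).inj x (hyX hx) z (hyX hz) hxz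
      u := hy.u
      u0 := hy.u0
      dec := hy.dec
      v := hy.v }
  have hyb' : y.Bd (q (k + 1)).1.ε :=
    ⟨fun p hp => (hk3 p hp).trans_le (hεm _ _ h3),
      fun x hx p hp => (hk4 x hx p hp).trans_le (hεm _ _ h4),
      fun p hp => (hk5 p hp).trans_le (hεm _ _ h5)⟩
  obtain ⟨z, hz1, hz2, hz3⟩ := q5 (k + 1) y hyo hyb' n
  refine ⟨z, lemA2_bd_mono hz1 (hε (k + 1 + 1)).le, ?_, lemA2_inD (hO n) hz3 hs (hsk (k + 1 + 1))⟩
  exact hz2.skl (q (k + 1 + 1)).2 (hyo.mono (q (k + 1)).2 (q2 (k + 1))) (hsk (k + 1 + 1))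

end Pool.Agent.CG3
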