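import Pool.Agent.Lib.MP_99c1f3_lc.CG.T.Meet
import Pool.Agent.Lib.MP_99c1f3_lc.CG.T.Sz

/-!
# CG3, block T, module Lim: unions of small chains of skeletons
-/

set_option autoImplicit false

namespace Pool.Agent.CG3

open Set

variable {I : Type 1}

/-- The union of a set of skeletons. -/
noncomputable def limS (C : Set (Skl I)) : Skl I where
  ε := sSup (Skl.ε '' C)
  X := {x | ∃ s ∈ C, x ∈ s.X}
  g x := {ν | ∃ s ∈ C, ν ∈ s.g x}
  S := {p | ∃ s ∈ C, p ∈ s.S}

/-- PROOF: `C` is small, so `Skl.ε '' C` is bounded and `s.ε ≤ (limS C).ε` for `s ∈ C`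
(`Ordinal.bddAbove_of_small`, `le_csSup`). Claim: for `s ∈ C`, `x ∈ s.X`, `ν < s.ε`:
`ν ∈ (limS C).g x ↔ ν ∈ s.g x`. If `ν ∈ r.g x`, `r ∈ C`, then `x ∈ r.X` (`gX`) and `ν < r.ε` (`gε`),
and `r`, `s` are comparable, so `SLe.g` of the stronger one over the weaker one gives it. `smX`,
`smS`: small unions (`small_bUnion`). `cov`, `dist`: two pairs of the union are pairs of one member
(the stronger one); a difference below `δ` in a member remains (Claim: it is at some `ν < r.ε` by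
`gε`). `frz` of `SLe (limS C) s`: `p ∈ r.S`; if `r` is stronger than `s` use `frz`, otherwise
`p ∈ s.S` by `SLe.S`. -/
theorem isSkl_limS (C : Set (Skl I)) (hne : C.Nonempty) (hsm : Small.{0} C)
    (hS : ∀ s ∈ C, IsSkl s) (hC : ∀ s ∈ C, ∀ r ∈ C, SLe s r ∨ SLe r s) :
    IsSkl (limS C) ∧ ∀ s ∈ C, SLe (limS C) s := by
  have hε : ∀ s ∈ C, s.ε ≤ (limS C).ε := by
    intro s hs
    have h1 : Small.{0} (Skl.ε '' C) := small_image _ _
    obtain ⟨γ, hγ⟩ := bd_of_small h1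
    exact le_csSup ⟨γ, fun x hx => (hγ x hx).le⟩ ⟨s, hs, rfl⟩
  have hX : ∀ r ∈ C, ∀ x, ∀ ν ∈ r.g x, x ∈ r.X := by
    intro r hr x ν hν
    by_contra h
    rw [(hS r hr).gX x h] at hν
    exact hν
  have hg : ∀ s ∈ C, ∀ x ∈ s.X, ∀ ν < s.ε, (ν ∈ (limS C).g x ↔ ν ∈ s.g x) := by
    intro s hs x hx ν hν
    constructor
    · rintro ⟨r, hr, hνr⟩
      rcases hC s hs r hr with h | h
      · exact (h.g x (hX r hr x ν hνr) ν ((hS r hr).gε x ν hνr)).2 hνr
      · exact (h.g x hx ν hν).1 hνr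
    · intro h
      exact ⟨s, hs, h⟩
  constructor
  · refine ⟨?_, ?_, ?_, ?_, ?_, ?_, ?_, ?_⟩
    · have h1 := small_bUnion hsm Skl.X fun s hs => (hS s hs).smX
      have h2 : (limS C).X = ⋃ s ∈ C, s.X := by
        ext x
        simp [limS]
      rw [h2]
      exact h1
    · have h1 := small_bUnion hsm Skl.S fun s hs => (hS s hs).smS
      have h2 : (limS C).S = ⋃ s ∈ C, s.S := by
        ext x
        simp [limS]
      rw [h2]
      exact h1
    · rintro x ν ⟨s, hs, h⟩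
      exact ((hS s hs).gε x ν h).trans_le (hε s hs)
    · intro x hx
      apply eq_empty_iff_forall_notMem.2
      rintro ν ⟨s, hs, h⟩
      exact hx ⟨s, hs, hX s hs x ν h⟩
    · rintro p ⟨s, hs, hp⟩
      exact ((hS s hs).le p hp).trans (hε s hs)
    · rintro p ⟨s, hs, hp⟩ x hx
      exact ⟨s, hs, (hS s hs).sub p hp hx⟩
    · rintro p ⟨s, hs, hp⟩ x hx z hz hxz
      obtain ⟨ν, h1, h2⟩ := (hS s hs).dist p hp x hx z hz hxz
      have h3 : ν < s.ε := h1.trans_le ((hS s hs).le p hp)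
      refine ⟨ν, h1, ?_⟩
      rw [hg s hs x ((hS s hs).sub p hp hx) ν h3, hg s hs z ((hS s hs).sub p hp hz) ν h3]
      exact h2
    · rintro p ⟨s, hs, hp⟩ q ⟨r, hr, hq⟩ hpq
      rcases hC s hs r hr with h | h
      · obtain ⟨K, h1, h2⟩ := (hS s hs).cov p hp q (h.S hq) hpq
        exact ⟨K, ⟨s, hs, h1⟩, h2⟩
      · obtain ⟨K, h1, h2⟩ := (hS r hr).cov p (h.S hp) q hq hpq
        exact ⟨K, ⟨r, hr, h1⟩, h2⟩
  · intro s hs
    refine ⟨hε s hs, fun x hx => ⟨s, hs, hx⟩, hg s hs, fun p hp => ⟨s, hs, hp⟩, ?_⟩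
    rintro q hq p ⟨r, hr, hp⟩ h3 h4
    rcases hC r hr s hs with h | h
    · exact h.frz q hq p hp h3 h4
    · exact h.S hp

/-- The preorder of the skeletons. -/
def SC (I : Type 1) : Type 1 := {s : Skl I // IsSkl s}

instance : Preorder (SC I) where
  le r s := SLe r.1 s.1
  le_refl s := SLe.refl s.1
  le_trans _ _ _ h1 h2 := SLe.trans h1 h2

/-- PROOF: for `0 < o` apply `isSkl_limS` to `C = {(c i).1 | i < o}` (small as an image of
`Iio o`); for `o = 0` take `c 0`. -/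
theorem cloK_SC : CloK (SC I) := by
  intro o c hc
  by_cases ho : 0 < o
  · have h0 : Small.{0} (Iio o) := Ordinal.small_Iio o
    have h1 : Small.{0} ((fun i => (c i).1) '' Iio o : Set (Skl I)) := small_image _ _
    obtain ⟨h2, h3⟩ := isSkl_limS ((fun i => (c i).1) '' Iio o) ⟨(c 0).1, 0, ho, rfl⟩ h1
      (by
        rintro _ ⟨i, _, rfl⟩
        exact (c i).2)
      (by
        rintro _ ⟨i, hi, rfl⟩ _ ⟨j, hj, rfl⟩
        rcases le_total i j with h | h
        · exact Or.inr (hc i j h hj)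
        · exact Or.inl (hc j i h hi))
    exact ⟨⟨_, h2⟩, fun i hi => h3 _ ⟨i, hi, rfl⟩⟩
  · exact ⟨c 0, fun i hi => absurd (lt_of_le_of_lt zero_le hi) ho⟩

end Pool.Agent.CG3
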