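import Pool.Agent.Lib.MP_99c1f3_lc.CG.T.Defs
import Pool.Agent.Lib.MP_99c1f3_lc.CG.Q.Hist

/-!
# CG3, block T, module Meet: meeting a small family of open dense sets
-/

set_option autoImplicit false

namespace Pool.Agent.CG3

open Set

universe w

/-- Descending sequences of length `< κ` have lower bounds. -/
def CloK (Q : Type 1) [Preorder Q] : Prop :=
  ∀ (o : K0) (c : K0 → Q), (∀ i j, i ≤ j → j < o → c j ≤ c i) → ∃ q, ∀ i < o, q ≤ c i

/-- A small family of open dense sets is met below any condition. -/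
theorem meet_small {Q : Type 1} [Preorder Q] (hQ : CloK Q) {ι : Type w} [Small.{0} ι]
    (D : ι → Set Q) (hD : ∀ i q, ∃ q' ≤ q, q' ∈ D i) (hO : ∀ i q q', q ∈ D i → q' ≤ q → q' ∈ D i)
    (q0 : Q) : ∃ q ≤ q0, ∀ i, q ∈ D i := by
  classical
  have h1 : Cardinal.mk (Cardinal.mk (Shrink.{0} ι)).ord.ToType = Cardinal.mk (Shrink.{0} ι) :=
    Cardinal.mk_ord_toType _
  obtain ⟨e⟩ := Cardinal.eq.1 h1
  obtain ⟨θ, hθ⟩ : ∃ θ : K0, θ = (Cardinal.mk (Shrink.{0} ι)).ord := ⟨_, rfl⟩
  subst hθ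
  let φ := (Ordinal.ToType.mk.toEquiv.trans e).trans (equivShrink.{0} ι).symm
  obtain ⟨s, hs⟩ := exists_hist (α := K0) (S := Q)
    (fun j hist x => x ≤ q0 ∧ (∀ k (hk : k < j), x ≤ hist k hk) ∧
      ∀ hj : j < (Cardinal.mk (Shrink.{0} ι)).ord, x ∈ D (φ ⟨j, hj⟩)) (by
    intro j s ih
    obtain ⟨q, hq1, hq2⟩ : ∃ q, q ≤ q0 ∧ ∀ k (hk : k < j), q ≤ s k hk := by
      rcases eq_or_ne j 0 with h0 | h0
      · refine ⟨q0, le_rfl, fun k hk => ?_⟩
        rw [h0] at hk
        exact absurd hk (not_lt.2 zero_le)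
      · have hj0 : 0 < j := pos_iff_ne_zero.2 h0
        obtain ⟨q, hq⟩ := hQ j (fun k => if h : k < j then s k h else q0) (by
          intro a b hab hb
          have ha : a < j := lt_of_le_of_lt hab hb
          change (if h : b < j then s b h else q0) ≤ (if h : a < j then s a h else q0)
          rw [dif_pos hb, dif_pos ha]
          rcases hab.lt_or_eq with h2 | h2
          · exact (ih b hb).2.1 a h2
          · subst h2
            exact le_rfl)
        refine ⟨q, ?_, fun k hk => ?_⟩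
        · have h2 := hq 0 hj0
          change q ≤ (if h : 0 < j then s 0 h else q0) at h2
          rw [dif_pos hj0] at h2
          exact h2.trans (ih 0 hj0).1
        · have h2 := hq k hk
          change q ≤ (if h : k < j then s k h else q0) at h2
          rwa [dif_pos hk] at h2
    by_cases hj : j < (Cardinal.mk (Shrink.{0} ι)).ord
    · obtain ⟨x, hx, hxD⟩ := hD (φ ⟨j, hj⟩) q
      exact ⟨x, hx.trans hq1, fun k hk => hx.trans (hq2 k hk), fun _ => hxD⟩
    · exact ⟨q, hq1, hq2, fun h => absurd h hj⟩)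
  refine ⟨s (Cardinal.mk (Shrink.{0} ι)).ord, (hs _).1, fun i => ?_⟩
  obtain ⟨⟨j, hj⟩, rfl⟩ := φ.surjective i
  exact hO _ _ _ ((hs j).2.2 hj) ((hs (Cardinal.mk (Shrink.{0} ι)).ord).2.1 j hj)

end Pool.Agent.CG3
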