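import Pool.Agent.Lib.MP_99c1f3_lc.CG.T.Sz

/-!
# CG3, block T, module Perm: permutations of the coordinates
-/

set_option autoImplicit false

namespace Pool.Agent.CG3

open Set

variable {I : Type 1}

/-- The action on pairs. -/
def pmP (σ : Equiv.Perm I) (p : K0 × Set I) : K0 × Set I := (p.1, σ '' p.2)

/-- The action on skeletons. -/
def Skl.perm (s : Skl I) (σ : Equiv.Perm I) : Skl I :=
  ⟨s.ε, σ '' s.X, fun x => s.g (σ.symm x), pmP σ '' s.S⟩

/-- The action on finite parts. -/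
def Fpt.perm (y : Fpt I) (σ : Equiv.Perm I) : Fpt I :=
  ⟨pmP σ '' y.A, σ '' y.a, fun x => y.u (σ.symm x), y.v⟩

theorem pmP_symm (σ : Equiv.Perm I) (p : K0 × Set I) : pmP σ.symm (pmP σ p) = p := by
  refine Prod.ext rfl ?_
  change σ.symm '' (σ '' p.2) = p.2
  exact Equiv.symm_image_image σ p.2

theorem mem_pmP {σ : Equiv.Perm I} {S : Set (K0 × Set I)} {δ : K0} {K : Set I} :
    (δ, K) ∈ pmP σ '' S ↔ (δ, σ.symm '' K) ∈ S := by
  constructor
  · rintro ⟨p, hp, h⟩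
    have h1 := pmP_symm σ p
    rw [h] at h1
    change ((δ, σ.symm '' K) : K0 × Set I) = p at h1
    rw [h1]
    exact hp
  · intro h
    refine ⟨_, h, Prod.ext rfl ?_⟩
    change σ '' (σ.symm '' K) = K
    exact Equiv.image_symm_image σ K

theorem df_perm {g : I → Set K0} {σ : Equiv.Perm I} {x z : I} {δ : K0} :
    Df (fun x => g (σ.symm x)) (σ x) (σ z) δ ↔ Df g x z δ := by
  simp only [Df, Equiv.symm_apply_apply]

theorem IsSkl.perm {s : Skl I} (h : IsSkl s) (σ : Equiv.Perm I) : IsSkl (s.perm σ) := by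
  refine ⟨?_, ?_, ?_, ?_, ?_, ?_, ?_, ?_⟩
  · have := h.smX
    change Small.{0} (σ '' s.X)
    infer_instance
  · have := h.smS
    change Small.{0} (pmP σ '' s.S)
    infer_instance
  · intro x ν hν
    exact h.gε _ ν hν
  · intro x hx
    exact h.gX _ fun h' => hx ⟨σ.symm x, h', σ.apply_symm_apply x⟩
  · rintro _ ⟨p, hp, rfl⟩
    exact h.le p hp
  · rintro _ ⟨p, hp, rfl⟩
    exact Set.image_mono (h.sub p hp)
  · rintro _ ⟨p, hp, rfl⟩ _ ⟨x, hx, rfl⟩ _ ⟨z, hz, rfl⟩ hne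
    exact df_perm.2 (h.dist p hp x hx z hz fun e => hne (by rw [e]))
  · rintro _ ⟨p, hp, rfl⟩ _ ⟨q, hq, rfl⟩ hlt
    obtain ⟨K, hK, h1, h2⟩ := h.cov p hp q hq hlt
    refine ⟨σ '' K, ⟨(p.1, K), hK, rfl⟩, ?_, Set.image_mono h2⟩
    change σ '' p.2 ∩ σ '' q.2 ⊆ σ '' K
    rw [← Set.image_inter σ.injective]
    exact Set.image_mono h1

theorem Fpt.perm_Δ (y : Fpt I) (σ : Equiv.Perm I) : (y.perm σ).Δ = y.Δ := by
  ext ν
  constructor
  · rintro (⟨_, ⟨x, hx, rfl⟩, h⟩ | ⟨K, p, hp, he⟩)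
    · refine Or.inl ⟨x, hx, ?_⟩
      change In (y.u (σ.symm (σ x))) ν at h
      rwa [σ.symm_apply_apply] at h
    · refine Or.inr ⟨p.2, ?_⟩
      have h1 : p.1 = ν := congrArg Prod.fst he
      rw [← h1]
      exact hp
  · rintro (⟨x, hx, h⟩ | ⟨K, hK⟩)
    · refine Or.inl ⟨σ x, ⟨x, hx, rfl⟩, ?_⟩
      change In (y.u (σ.symm (σ x))) ν
      rwa [σ.symm_apply_apply]
    · exact Or.inr ⟨σ '' K, ⟨(ν, K), hK, rfl⟩⟩

theorem Over.perm {s : Skl I} {y : Fpt I} (h : Over s y) (σ : Equiv.Perm I) :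
    Over (s.perm σ) (y.perm σ) := by
  refine ⟨h.Afin.image _, Set.image_mono h.AS, h.afin.image _, Set.image_mono h.aX, ?_, ?_, ?_, ?_,
    h.v⟩
  · rintro _ ⟨x, hx, rfl⟩ _ ⟨z, hz, rfl⟩ hne
    exact df_perm.2 (h.dis x hx z hz fun e => hne (by rw [e]))
  · rintro _ ⟨x, hx, rfl⟩
    change IsU (y.u (σ.symm (σ x)))
    rw [σ.symm_apply_apply]
    exact h.u x hx
  · intro x hx
    exact h.u0 _ fun h' => hx ⟨σ.symm x, h', σ.apply_symm_apply x⟩
  · rintro _ ⟨x, hx, rfl⟩ ν hν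
    rw [Fpt.perm_Δ] at hν
    change Dec (y.u (σ.symm (σ x))) ν
    rw [σ.symm_apply_apply]
    exact h.dec x hx ν hν

/-- The action on conditions. -/
def TC.perm (t : TC I) (σ : Equiv.Perm I) : TC I := ⟨t.s.perm σ, t.y.perm σ, t.hs.perm σ, t.hy.perm σ⟩

theorem perm_mono (σ : Equiv.Perm I) {t' t : TC I} (h : t' ≤ t) : t'.perm σ ≤ t.perm σ := by
  refine ⟨⟨h.1.ε, Set.image_mono h.1.X, ?_, Set.image_mono h.1.S, ?_⟩,
    ⟨Set.image_mono h.2.A, Set.image_mono h.2.a, ?_, h.2.v, ?_, ?_⟩⟩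
  · rintro _ ⟨x, hx, rfl⟩ ν hν
    change ν ∈ t'.s.g (σ.symm (σ x)) ↔ ν ∈ t.s.g (σ.symm (σ x))
    rw [σ.symm_apply_apply]
    exact h.1.g x hx ν hν
  · rintro _ ⟨q, hq, rfl⟩ _ ⟨p, hp, rfl⟩ hlt hsub
    exact ⟨p, h.1.frz q hq p hp hlt ((Set.image_subset_image_iff σ.injective).1 hsub), rfl⟩
  · rintro _ ⟨x, hx, rfl⟩
    change ULe (t'.y.u (σ.symm (σ x))) (t.y.u (σ.symm (σ x)))
    rw [σ.symm_apply_apply]
    exact h.2.u x hx
  · rintro _ ⟨x, hx, rfl⟩ hx' _ ⟨p, hp, rfl⟩ hxp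
    change In (t'.y.u (σ.symm (σ x))) p.1
    rw [σ.symm_apply_apply]
    obtain ⟨z, hz, e⟩ := hxp
    rw [σ.injective e] at hz
    exact h.2.act x hx (fun h' => hx' ⟨x, h', rfl⟩) p hp hz
  · rintro _ ⟨x, hx, rfl⟩ _ ⟨x', hx', rfl⟩ hne ν h1 h2 h3
    change In (t'.y.u (σ.symm (σ x))) ν at h1
    change In (t'.y.u (σ.symm (σ x'))) ν at h2
    rw [σ.symm_apply_apply] at h1 h2
    change ν ∉ (t.y.perm σ).Δ at h3
    rw [Fpt.perm_Δ] at h3
    exact df_perm.2 (h.2.tt x hx x' hx' (fun e => hne (by rw [e])) ν h1 h2 h3)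

theorem perm_X (t : TC I) (σ : Equiv.Perm I) : (t.perm σ).s.X = σ '' t.s.X := rfl

theorem perm_bd {t : TC I} {i : K0} (h : t.Bd i) (σ : Equiv.Perm I) : (t.perm σ).Bd i := by
  refine ⟨h.ε, ?_, h.v⟩
  rintro _ ⟨x, hx, rfl⟩ p hp
  change p ∈ t.y.u (σ.symm (σ x)) at hp
  rw [σ.symm_apply_apply] at hp
  exact h.u x hx p hp

theorem pr_perm (x : I) (t : TC I) (σ : Equiv.Perm I) : pr (σ x) (t.perm σ) = pr x t := by
  refine Subtype.ext ?_
  change (t.y.perm σ).pu (σ x) = t.y.pu x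
  by_cases hx : x ∈ t.y.a
  · rw [Fpt.pu_of_mem hx, Fpt.pu_of_mem (show σ x ∈ (t.y.perm σ).a from ⟨x, hx, rfl⟩)]
    change t.y.u (σ.symm (σ x)) = t.y.u x
    rw [σ.symm_apply_apply]
  · have hx' : σ x ∉ (t.y.perm σ).a := by
      rintro ⟨z, hz, e⟩
      rw [σ.injective e] at hz
      exact hx hz
    rw [Fpt.pu_of_not_mem hx, Fpt.pu_of_not_mem hx']
    have h1 : (t.y.perm σ).act (σ x) = t.y.act x := by
      ext ν
      constructor
      · rintro ⟨K, hK, hxK⟩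
        refine ⟨σ.symm '' K, mem_pmP.1 hK, ⟨σ x, hxK, σ.symm_apply_apply x⟩⟩
      · rintro ⟨K, hK, hxK⟩
        exact ⟨σ '' K, ⟨(ν, K), hK, rfl⟩, ⟨x, hxK, rfl⟩⟩
    rw [h1]

private theorem perm_tc_ext {t t' : TC I} (hs : t.s = t'.s) (hy : t.y = t'.y) : t = t' := by
  cases t
  cases t'
  cases hs
  cases hy
  rfl

private theorem perm_skl_ext {s s' : Skl I} (h1 : s.ε = s'.ε) (h2 : s.X = s'.X) (h3 : s.g = s'.g)
    (h4 : s.S = s'.S) : s = s' := by
  cases s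
  cases s'
  cases h1
  cases h2
  cases h3
  cases h4
  rfl

private theorem perm_fpt_ext {s s' : Fpt I} (h1 : s.A = s'.A) (h2 : s.a = s'.a) (h3 : s.u = s'.u)
    (h4 : s.v = s'.v) : s = s' := by
  cases s
  cases s'
  cases h1
  cases h2
  cases h3
  cases h4
  rfl

private theorem perm_pmP (σ τ : Equiv.Perm I) (p : K0 × Set I) :
    pmP τ (pmP σ p) = pmP (σ.trans τ) p :=
  Prod.ext rfl (Set.image_image _ _ _)

private theorem perm_val {X : Set I} {σ τ : Equiv.Perm I} (h : ∀ x ∈ X, σ x = τ x) {β : Type*}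
    {f : I → β} {c : β} (hf : ∀ x, x ∉ X → f x = c) (x : I) : f (σ.symm x) = f (τ.symm x) := by
  by_cases h1 : σ.symm x ∈ X
  · have h2 := h _ h1
    rw [σ.apply_symm_apply] at h2
    rw [h2, τ.symm_apply_apply, ← h2]
  · by_cases h3 : τ.symm x ∈ X
    · have h2 := h _ h3
      rw [τ.apply_symm_apply] at h2
      rw [← h2, σ.symm_apply_apply, h2]
    · rw [hf _ h1, hf _ h3]

theorem perm_perm (t : TC I) (σ τ : Equiv.Perm I) : (t.perm σ).perm τ = t.perm (σ.trans τ) := by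
  refine perm_tc_ext ?_ ?_
  · refine perm_skl_ext rfl ?_ rfl ?_
    · exact Set.image_image _ _ _
    · change pmP τ '' (pmP σ '' t.s.S) = pmP (σ.trans τ) '' t.s.S
      rw [Set.image_image]
      exact Set.image_congr fun p _ => perm_pmP σ τ p
  · refine perm_fpt_ext ?_ ?_ rfl rfl
    · change pmP τ '' (pmP σ '' t.y.A) = pmP (σ.trans τ) '' t.y.A
      rw [Set.image_image]
      exact Set.image_congr fun p _ => perm_pmP σ τ p
    · exact Set.image_image _ _ _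

/-- PROOF: `g x = ∅` and `u x = ∅` for `x ∉ t.s.X`; all sets of the side conditions are subsets of
`t.s.X`; `σ.symm x = τ.symm x` for `x ∈ σ '' t.s.X = τ '' t.s.X`, and for the other `x` both
`σ.symm x` and `τ.symm x` are not in `t.s.X`. -/
theorem perm_congr {t : TC I} {σ τ : Equiv.Perm I} (h : ∀ x ∈ t.s.X, σ x = τ x) :
    t.perm σ = t.perm τ := by
  have hP : ∀ p : K0 × Set I, p.2 ⊆ t.s.X → pmP σ p = pmP τ p := by
    intro p hp
    exact Prod.ext rfl (Set.image_congr fun x hx => h x (hp hx))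
  refine perm_tc_ext ?_ ?_
  · refine perm_skl_ext rfl (Set.image_congr h) ?_
      (Set.image_congr fun p hp => hP p (t.hs.sub p hp))
    funext x
    exact perm_val h (fun z hz => t.hs.gX z hz) x
  · refine perm_fpt_ext (Set.image_congr fun p hp => hP p (t.hs.sub p (t.hy.AS hp)))
      (Set.image_congr fun x hx => h x (t.hy.aX hx)) ?_ rfl
    funext x
    exact perm_val h (fun z hz => t.hy.u0 z fun h' => hz (t.hy.aX h')) x

theorem perm_id {t : TC I} {σ : Equiv.Perm I} (h : ∀ x ∈ t.s.X, σ x = x) : t.perm σ = t := by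
  have h1 : t.perm σ = t.perm (Equiv.refl I) := perm_congr h
  rw [h1]
  have hp : ∀ p : K0 × Set I, pmP (Equiv.refl I) p = p := by
    intro p
    refine Prod.ext rfl ?_
    change (fun x => x) '' p.2 = p.2
    exact Set.image_id' _
  have hq : ∀ S : Set (K0 × Set I), pmP (Equiv.refl I) '' S = S := by
    intro S
    rw [Set.image_congr fun p _ => hp p]
    exact Set.image_id' _
  refine perm_tc_ext ?_ ?_
  · refine perm_skl_ext rfl ?_ rfl (hq _)
    exact Set.image_id' _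
  · refine perm_fpt_ext (hq _) ?_ rfl rfl
    exact Set.image_id' _

end Pool.Agent.CG3
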