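import Pool.Agent.Lib.MP_99c1f3_lc.CG.T.LemA

/-!
# CG3, block T, module SmFpt: few finite parts over a skeleton
-/

set_option autoImplicit false

namespace Pool.Agent.CG3

open Set

variable {I : Type 1}

/-- There are few finite parts with bounded ordinals over a skeleton. -/
theorem small_fpt {s : Skl I} (hs : IsSkl s) (γ : K0) :
    Small.{0} {y : Fpt I | Over s y ∧ y.Bd γ} := by
  classical
  have h1 : Small.{0} {A : Set (K0 × Set I) | A ⊆ s.S} := small_powerset hs.smS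
  have h2 : Small.{0} {a : Set I | a ⊆ s.X} := small_powerset hs.smX
  have h0 : Small.{0} (Iio γ) := inferInstance
  have h3 : Small.{0} {U : Set (K0 × K0) | U ⊆ Iio γ ×ˢ Iio γ} :=
    small_powerset (small_setProd (Iio γ) (Iio γ))
  have h4 : Small.{0} {v : Set (K0 × ℕ × K0) | v ⊆ Iio γ ×ˢ ((univ : Set ℕ) ×ˢ Iio γ)} :=
    small_powerset (by
      have := small_setProd (univ : Set ℕ) (Iio γ)
      exact small_setProd (Iio γ) ((univ : Set ℕ) ×ˢ Iio γ))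
  have h5 : Small.{0} s.X := hs.smX
  have hu : ∀ y : {y : Fpt I | Over s y ∧ y.Bd γ}, ∀ x, y.1.u x ⊆ Iio γ ×ˢ Iio γ := by
    rintro ⟨y, h, hb⟩ x p hp
    by_cases hx : x ∈ y.a
    · exact ⟨((h.u x hx).le p hp).trans_lt (hb.u x hx p hp), hb.u x hx p hp⟩
    · change p ∈ y.u x at hp
      rw [h.u0 x hx] at hp
      exact hp.elim
  refine small_of_injective
    (β := {A : Set (K0 × Set I) | A ⊆ s.S} × {a : Set I | a ⊆ s.X} ×
      (s.X → {U : Set (K0 × K0) | U ⊆ Iio γ ×ˢ Iio γ}) ×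
      {v : Set (K0 × ℕ × K0) | v ⊆ Iio γ ×ˢ ((univ : Set ℕ) ×ˢ Iio γ)})
    (f := fun y => (⟨y.1.A, y.2.1.AS⟩, ⟨y.1.a, y.2.1.aX⟩, fun x => ⟨y.1.u x, hu y x⟩,
      ⟨y.1.v, fun p hp => ⟨y.2.2.v p hp, trivial, (y.2.1.v.lt p hp).trans (y.2.2.v p hp)⟩⟩)) ?_
  rintro ⟨⟨A, a, u, v⟩, h, hb⟩ ⟨⟨A', a', u', v'⟩, h', hb'⟩ e
  have e1 : A = A' := congrArg (fun z => (z.1 : Set (K0 × Set I))) e
  have e2 : a = a' := congrArg (fun z => (z.2.1 : Set I)) e
  have e3 : ∀ x : s.X, u x = u' x := fun x => congrArg (fun z => (z.2.2.1 x : Set (K0 × K0))) e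
  have e4 : v = v' := congrArg (fun z => (z.2.2.2 : Set (K0 × ℕ × K0))) e
  subst e1 e2 e4
  have e5 : u = u' := by
    funext x
    by_cases hx : x ∈ s.X
    · exact e3 ⟨x, hx⟩
    · have hxa : x ∉ a := fun hh => hx (h.aX hh)
      have h6 := h.u0 x hxa
      have h7 := h'.u0 x hxa
      change u x = ∅ at h6
      change u' x = ∅ at h7
      rw [h6, h7]
  subst e5
  rfl

end Pool.Agent.CG3
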